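import Mathlib

/-!
Averages of additive characters over the units of `ZMod m`.
-/

set_option autoImplicit false
set_option linter.unusedSectionVars false

namespace Pool.Agent.Lib.MP_938ce2_ag_h85f

open Finset

/-- sum of the primitive `n`-th roots of unity -/
noncomputable def primSum (n : ℕ) : ℂ := ∑ ξ ∈ primitiveRoots n ℂ, ξ

lemma sum_divisors_primSum {n : ℕ} (hn : 0 < n) :
    ∑ d ∈ n.divisors, primSum d = if n = 1 then 1 else 0 := by
  classical
  have hne : NeZero n := ⟨hn.ne'⟩
  have h1 : ∑ d ∈ n.divisors, primSum d = ∑ ξ ∈ Polynomial.nthRootsFinset n (1 : ℂ), ξ := by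
    rw [IsPrimitiveRoot.nthRoots_one_eq_biUnion_primitiveRoots, Finset.sum_biUnion]
    · rfl
    · intro i _ j _ hij
      exact IsPrimitiveRoot.disjoint hij
  rw [h1]
  have hζ := Complex.isPrimitiveRoot_exp n hn.ne'
  set ζ := Complex.exp (2 * Real.pi * Complex.I / n) with hζdef
  have h2 : ∑ ξ ∈ Polynomial.nthRootsFinset n (1 : ℂ), ξ = ∑ i ∈ Finset.range n, ζ ^ i := by
    symm
    refine Finset.sum_bij (fun i _ => ζ ^ i) ?_ ?_ ?_ ?_
    · intro i _
      rw [Polynomial.mem_nthRootsFinset hn, ← pow_mul, mul_comm, pow_mul, hζ.pow_eq_one, one_pow]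
    · intro i hi j hj h
      exact hζ.pow_inj (Finset.mem_range.mp hi) (Finset.mem_range.mp hj) h
    · intro ξ hξ
      rw [Polynomial.mem_nthRootsFinset hn] at hξ
      obtain ⟨i, hi, h⟩ := hζ.eq_pow_of_pow_eq_one hξ
      exact ⟨i, Finset.mem_range.mpr hi, h⟩
    · intro i _; rfl
  rw [h2]
  split_ifs with h3
  · subst h3; simp
  · exact hζ.geom_sum_eq_zero (by omega)

lemma sum_divisors_moebius (n : ℕ) :
    ∑ d ∈ n.divisors, ArithmeticFunction.moebius d = if n = 1 then 1 else 0 := by
  have h := congrArg (fun f => f n) ArithmeticFunction.moebius_mul_coe_zeta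
  simp only [ArithmeticFunction.one_apply] at h
  rw [ArithmeticFunction.coe_mul_zeta_apply] at h
  exact h

lemma primSum_eq (n : ℕ) (hn : 0 < n) : primSum n = ((ArithmeticFunction.moebius n : ℤ) : ℂ) := by
  induction n using Nat.strong_induction_on with
  | _ n ih =>
    have h1 := sum_divisors_primSum hn
    have h2 := sum_divisors_moebius n
    rw [← Nat.insert_self_properDivisors hn.ne', Finset.sum_insert Nat.self_notMem_properDivisors]
      at h1 h2
    have h3 : ∑ d ∈ n.properDivisors, primSum d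
        = ((∑ d ∈ n.properDivisors, ArithmeticFunction.moebius d : ℤ) : ℂ) := by
      push_cast
      refine Finset.sum_congr rfl fun d hd => ?_
      rw [Nat.mem_properDivisors] at hd
      exact ih d hd.2 (Nat.pos_of_dvd_of_pos hd.1 hn)
    rw [h3] at h1
    have h4 : ((ArithmeticFunction.moebius n : ℤ) : ℂ)
        + ((∑ d ∈ n.properDivisors, ArithmeticFunction.moebius d : ℤ) : ℂ)
        = if n = 1 then 1 else 0 := by
      rw [← Int.cast_add, h2]
      split_ifs <;> simp
    rw [← h4] at h1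
    exact add_right_cancel h1

lemma norm_primSum_le {n : ℕ} (hn : 0 < n) : ‖primSum n‖ ≤ 1 := by
  rw [primSum_eq n hn]
  have h := ArithmeticFunction.abs_moebius_le_one (n := n)
  rw [Complex.norm_intCast]
  exact_mod_cast h

section

variable {m : ℕ} [NeZero m]

/-- average over the units -/
noncomputable def avg {A : Type} [AddCommMonoid A] [Module ℝ A] (g : (ZMod m)ˣ → A) : A :=
  ((Fintype.card (ZMod m)ˣ : ℝ)⁻¹) • ∑ t, g t

/-- the standard additive character -/
noncomputable def ee (y : ZMod m) : ℂ := ZMod.stdAddChar y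

/-- the average of an additive character over the units -/
noncomputable def kap (y : ZMod m) : ℂ := avg fun t : (ZMod m)ˣ => ee ((t : ZMod m) * y)

lemma ee_add (y z : ZMod m) : ee (y + z) = ee y * ee z := AddChar.map_add_eq_mul _ _ _
lemma ee_zero : ee (0 : ZMod m) = 1 := AddChar.map_zero_eq_one _
lemma norm_ee (y : ZMod m) : ‖ee y‖ = 1 := by
  unfold ee
  rw [ZMod.stdAddChar_apply]
  exact Circle.norm_coe _

lemma card_units_pos : (0 : ℝ) < Fintype.card (ZMod m)ˣ := by
  exact_mod_cast Fintype.card_pos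

/-- the order of the value of the character -/
lemma isPrimitiveRoot_ee (y : ZMod m) : IsPrimitiveRoot (ee y) (addOrderOf y) := by
  have h1 : orderOf (ee y) = addOrderOf y := by
    have h2 := orderOf_injective (ZMod.stdAddChar (N := m)).toMonoidHom
      ZMod.injective_stdAddChar (Multiplicative.ofAdd y)
    rw [orderOf_ofAdd_eq_addOrderOf] at h2
    exact h2
  rw [← h1]
  exact IsPrimitiveRoot.orderOf _

lemma sum_units_pow {R : ℕ} [NeZero R] {ζ : ℂ} (hζ : IsPrimitiveRoot ζ R) :
    ∑ u : (ZMod R)ˣ, ζ ^ (u : ZMod R).val = primSum R := by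
  have hR : 0 < R := Nat.pos_of_ne_zero (NeZero.ne R)
  unfold primSum
  refine Finset.sum_bij (fun u _ => ζ ^ (u : ZMod R).val) ?_ ?_ ?_ ?_
  · intro u _
    rw [mem_primitiveRoots hR]
    exact hζ.pow_of_coprime _ (ZMod.val_coe_unit_coprime u)
  · intro u _ v _ h
    have h1 := hζ.pow_inj (ZMod.val_lt _) (ZMod.val_lt _) h
    exact Units.ext (ZMod.val_injective R h1)
  · intro ξ hξ
    rw [mem_primitiveRoots hR] at hξ
    obtain ⟨i, hi, hco, h⟩ := (hζ.isPrimitiveRoot_iff).mp hξ
    refine ⟨ZMod.unitOfCoprime i hco, Finset.mem_univ _, ?_⟩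
    rw [ZMod.coe_unitOfCoprime, ZMod.val_natCast_of_lt hi, h]
  · intro u _; rfl

theorem norm_kap_le (y : ZMod m) : ‖kap y‖ ≤ 1 / (Nat.totient (addOrderOf y) : ℝ) := by
  classical
  set R := addOrderOf y with hR
  have hRpos : 0 < R := addOrderOf_pos y
  have hneR : NeZero R := ⟨hRpos.ne'⟩
  have hdvd : R ∣ m := by
    have h := addOrderOf_dvd_card (x := y)
    rwa [ZMod.card] at h
  have hζ := isPrimitiveRoot_ee y
  rw [← hR] at hζ
  -- the value at a unit depends on the unit modulo `R` only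
  have h1 : ∀ t : (ZMod m)ˣ, ee ((t : ZMod m) * y) = ee y ^ ((ZMod.unitsMap hdvd t : ZMod R)).val := by
    intro t
    have h2 : (t : ZMod m) * y = (t : ZMod m).val • y := by
      rw [nsmul_eq_mul, ZMod.natCast_val, ZMod.cast_id]
    rw [h2]
    have h3 : ee ((t : ZMod m).val • y) = ee y ^ (t : ZMod m).val := AddChar.map_nsmul_eq_pow _ _ _
    rw [h3]
    have h4 : ((ZMod.unitsMap hdvd t : (ZMod R)ˣ) : ZMod R).val = (t : ZMod m).val % R := by
      rw [ZMod.unitsMap_def, Units.coe_map]
      change (ZMod.castHom hdvd (ZMod R) (t : ZMod m)).val = _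
      rw [ZMod.castHom_apply, ZMod.cast_eq_val, ZMod.val_natCast]
    rw [h4]
    exact (pow_mod_orderOf _ _ |>.symm).trans (by rw [hζ.eq_orderOf])
  have hsurj := ZMod.unitsMap_surjective hdvd
  -- fibres
  set c := (Finset.univ.filter fun t : (ZMod m)ˣ => ZMod.unitsMap hdvd t = 1).card with hc
  have hfib : ∀ u : (ZMod R)ˣ, (Finset.univ.filter fun t : (ZMod m)ˣ => ZMod.unitsMap hdvd t = u).card = c :=
    fun u => MonoidHom.card_fiber_eq_of_mem_range _ (hsurj u) (hsurj 1)
  have h2 : ∑ t : (ZMod m)ˣ, ee ((t : ZMod m) * y) = c * primSum R := by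
    rw [Finset.sum_congr rfl fun t _ => h1 t]
    rw [← Finset.sum_fiberwise_of_maps_to (s := Finset.univ) (t := Finset.univ)
      (g := fun t : (ZMod m)ˣ => ZMod.unitsMap hdvd t) (fun _ _ => Finset.mem_univ _)]
    rw [← sum_units_pow hζ, Finset.mul_sum]
    refine Finset.sum_congr rfl fun u _ => ?_
    rw [Finset.sum_congr rfl (g := fun _ => ee y ^ (u : ZMod R).val), Finset.sum_const, hfib,
      nsmul_eq_mul]
    intro t ht
    rw [(Finset.mem_filter.mp ht).2]
  have h3 : Fintype.card (ZMod m)ˣ = c * Nat.totient R := by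
    rw [← Finset.card_univ, Finset.card_eq_sum_card_fiberwise (s := Finset.univ) (t := Finset.univ)
      (f := fun t : (ZMod m)ˣ => ZMod.unitsMap hdvd t) (fun _ _ => Finset.mem_univ _)]
    rw [Finset.sum_congr rfl fun u _ => hfib u, Finset.sum_const, Finset.card_univ,
      ZMod.card_units_eq_totient, smul_eq_mul, mul_comm]
  have hcpos : (0 : ℝ) < c := by
    have h4 : 0 < Fintype.card (ZMod m)ˣ := Fintype.card_pos
    rw [h3] at h4
    exact_mod_cast Nat.pos_of_mul_pos_right h4
  have hφ : (0 : ℝ) < Nat.totient R := by exact_mod_cast Nat.totient_pos.mpr hRpos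
  unfold kap avg
  rw [h2, h3, norm_smul, norm_mul, Complex.norm_natCast, Real.norm_eq_abs, abs_of_nonneg (by positivity)]
  push_cast
  rw [le_div_iff₀ hφ]
  calc ((c : ℝ) * (Nat.totient R : ℝ))⁻¹ * (c * ‖primSum R‖) * (Nat.totient R : ℝ)
      = ‖primSum R‖ := by field_simp
    _ ≤ 1 := norm_primSum_le hRpos

end

end Pool.Agent.Lib.MP_938ce2_ag_h85f
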