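import Mathlib

/-!
Tate characters of Fermat hypersurfaces.
-/

set_option autoImplicit false

namespace Pool.Agent.Lib.MP_938ce2_ag_h85f

open Finset

/-- `a` is a Tate character of the Fermat hypersurface of degree `m` and dimension `2 * l - 2`:
all `2 * l` entries are nonzero, and for every unit `t` the sum of the representatives of the `t * a i`
in `[0, m)` is `l * m`. -/
def IsTate (m l : ℕ) (a : Fin (2 * l) → ZMod m) : Prop :=
  (∀ i, a i ≠ 0) ∧ ∀ t : (ZMod m)ˣ, ∑ i, ((t : ZMod m) * a i).val = l * m

/-- `a` is decomposable: the indices can be grouped in pairs so that the two entries of every pair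
are opposite. -/
def Decomposable (m l : ℕ) (a : Fin (2 * l) → ZMod m) : Prop :=
  ∃ σ : Equiv.Perm (Fin (2 * l)), ∀ i, σ i ≠ i ∧ σ (σ i) = i ∧ a (σ i) = - a i

end Pool.Agent.Lib.MP_938ce2_ag_h85f
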