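import Mathlib
import Pool.Agent.Lib.MP_938ce2_ag_h85f.Kappa

/-!
Approximation of the sawtooth function by trigonometric polynomials.
-/

set_option autoImplicit false
set_option linter.unusedSectionVars false

namespace Pool.Agent.Lib.MP_938ce2_ag_h85f

open Finset

section

variable {m : ℕ} [NeZero m]

/-- the sawtooth function -/
noncomputable def saw (b : ZMod m) : ℝ := (b.val : ℝ) / m - 1 / 2

/-- trigonometric polynomials -/
noncomputable def trig (S : Finset ℤ) (c : ℤ → ℂ) (b : ZMod m) : ℂ :=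
  ∑ r ∈ S, c r * ee ((r : ZMod m) * b)

/-- points close to `0` on the circle -/
def near (δ : ℝ) (b : ZMod m) : Prop := (b.val : ℝ) / m < δ ∨ 1 - (b.val : ℝ) / m < δ

lemma m_pos : (0 : ℝ) < m := by exact_mod_cast Nat.pos_of_ne_zero (NeZero.ne m)

lemma val_div_lt (b : ZMod m) : (b.val : ℝ) / m < 1 := by
  rw [div_lt_one m_pos]
  exact_mod_cast ZMod.val_lt b

lemma val_div_nonneg (b : ZMod m) : 0 ≤ (b.val : ℝ) / m := by positivity

lemma abs_saw_le (b : ZMod m) : |saw b| ≤ 1 / 2 := by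
  unfold saw
  have h1 := val_div_lt b
  have h2 := val_div_nonneg b
  rw [abs_le]
  constructor <;> linarith

lemma val_neg {b : ZMod m} (hb : b ≠ 0) : ((-b).val : ℝ) / m = 1 - (b.val : ℝ) / m := by
  have h1 : (-b).val = m - b.val := by
    rw [ZMod.neg_val, if_neg hb]
  have h2 : b.val ≤ m := (ZMod.val_lt b).le
  rw [h1, Nat.cast_sub h2, sub_div, div_self (m_pos (m := m)).ne']

lemma saw_neg {b : ZMod m} (hb : b ≠ 0) : saw (-b) = - saw b := by
  unfold saw
  rw [val_neg hb]; ring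

lemma near_neg {b : ZMod m} (hb : b ≠ 0) (δ : ℝ) : near δ (-b) ↔ near δ b := by
  unfold near
  rw [val_neg hb]
  constructor
  · rintro (h | h)
    · exact Or.inr h
    · left; linarith
  · rintro (h | h)
    · right; linarith
    · exact Or.inl h

lemma ee_int_mul (r : ℤ) (b : ZMod m) :
    ee ((r : ZMod m) * b) = Complex.exp (2 * Real.pi * Complex.I * (r * ((b.val : ℝ) / m : ℝ))) := by
  have h1 : (r : ZMod m) * b = ((r * (b.val : ℤ) : ℤ) : ZMod m) := by
    push_cast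
    rw [ZMod.natCast_val, ZMod.cast_id]
  rw [h1]
  unfold ee
  rw [ZMod.stdAddChar_coe]
  congr 1
  push_cast
  ring

end

/-- the continuous modification of the sawtooth function -/
noncomputable def gd (δ y : ℝ) : ℝ := max (min (y - 1 / 2) ((1 - y) / δ)) (-y / δ)

lemma gd_eq {δ y : ℝ} (hδ : 0 < δ) (h1 : δ ≤ y) (h2 : δ ≤ 1 - y) : gd δ y = y - 1 / 2 := by
  unfold gd
  have e1 : 1 ≤ (1 - y) / δ := by rw [le_div_iff₀ hδ]; linarith
  have e2 : -y / δ ≤ -1 := by rw [div_le_iff₀ hδ]; linarith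
  rw [min_eq_left (by linarith), max_eq_left (by linarith)]

lemma gd_near {δ y : ℝ} (hδ : 0 < δ) (h1 : 0 ≤ y) (h2 : y ≤ 1) : |gd δ y - (y - 1 / 2)| ≤ 1 / 2 := by
  unfold gd
  have e1 : 0 ≤ (1 - y) / δ := div_nonneg (by linarith) hδ.le
  have e2 : -y / δ ≤ 0 := div_nonpos_of_nonpos_of_nonneg (by linarith) hδ.le
  rw [abs_le]
  constructor
  · have : min (y - 1 / 2) ((1 - y) / δ) ≥ y - 1 / 2 - 1 / 2 := le_min (by linarith) (by linarith)
    have := le_max_left (min (y - 1 / 2) ((1 - y) / δ)) (-y / δ)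
    linarith
  · have : max (min (y - 1 / 2) ((1 - y) / δ)) (-y / δ) ≤ y - 1 / 2 + 1 / 2 := by
      refine max_le ?_ (by linarith)
      have := min_le_left (y - 1 / 2) ((1 - y) / δ)
      linarith
    linarith

lemma gd_zero {δ : ℝ} (hδ : 0 < δ) : gd δ 0 = 0 := by
  unfold gd
  have e1 : (0 : ℝ) ≤ (1 - 0) / δ := by positivity
  rw [neg_zero, zero_div, max_eq_right]
  exact (min_le_left _ _).trans (by norm_num)

lemma gd_one {δ : ℝ} (hδ : 0 < δ) : gd δ 1 = 0 := by
  unfold gd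
  rw [sub_self, zero_div, min_eq_right (by norm_num), max_eq_left]
  exact div_nonpos_of_nonpos_of_nonneg (by norm_num) hδ.le

/-- approximation on the circle -/
lemma approx_circle {δ η : ℝ} (hδ : 0 < δ) (hη : 0 < η) :
    ∃ (S : Finset ℤ) (c : ℤ → ℂ), (∀ r, r ∉ S → c r = 0) ∧ ∀ (m : ℕ) [NeZero m] (b : ZMod m),
      ‖((gd δ ((b.val : ℝ) / m) : ℝ) : ℂ) - trig S c b‖ ≤ η := by
  have : Fact (0 < (1 : ℝ)) := ⟨one_pos⟩
  have hcont : ContinuousOn (fun y => ((gd δ y : ℝ) : ℂ)) (Set.Icc 0 (0 + 1)) := by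
    apply Continuous.continuousOn
    apply Complex.continuous_ofReal.comp
    unfold gd
    fun_prop
  have hend : ((gd δ 0 : ℝ) : ℂ) = ((gd δ (0 + 1) : ℝ) : ℂ) := by
    rw [gd_zero hδ, zero_add, gd_one hδ]
  let f : C(AddCircle (1 : ℝ), ℂ) :=
    ⟨AddCircle.liftIco 1 0 (fun y => ((gd δ y : ℝ) : ℂ)), AddCircle.liftIco_continuous hend hcont⟩
  have hf : f ∈ (Submodule.span ℂ (Set.range (@fourier 1))).topologicalClosure := by
    rw [span_fourier_closure_eq_top]; trivial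
  rw [← SetLike.mem_coe, Submodule.topologicalClosure_coe, Metric.mem_closure_iff] at hf
  obtain ⟨P, hP, hdist⟩ := hf η hη
  rw [SetLike.mem_coe, Finsupp.mem_span_range_iff_exists_finsupp] at hP
  obtain ⟨c, rfl⟩ := hP
  refine ⟨c.support, c, fun r hr => Finsupp.notMem_support_iff.mp hr, fun m _ b => ?_⟩
  set y : ℝ := (b.val : ℝ) / m with hy
  have hy0 : y ∈ Set.Ico (0 : ℝ) (0 + 1) := ⟨val_div_nonneg b, by rw [zero_add]; exact val_div_lt b⟩
  have h1 : f (y : AddCircle (1 : ℝ)) = ((gd δ y : ℝ) : ℂ) := by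
    change AddCircle.liftIco 1 0 (fun y => ((gd δ y : ℝ) : ℂ)) (y : AddCircle (1 : ℝ)) = _
    rw [AddCircle.liftIco_coe_apply hy0]
  have h2 : (c.sum fun i a => a • @fourier 1 i) (y : AddCircle (1 : ℝ)) = trig c.support c b := by
    rw [Finsupp.sum, ContinuousMap.coe_sum, Finset.sum_apply]
    unfold trig
    refine Finset.sum_congr rfl fun r _ => ?_
    rw [ContinuousMap.coe_smul, Pi.smul_apply, smul_eq_mul, fourier_coe_apply, ee_int_mul, ← hy]
    congr 2
    push_cast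
    ring
  rw [← h1, ← h2, ← dist_eq_norm]
  exact (ContinuousMap.dist_apply_le_dist _).trans hdist.le

/-- approximation of the sawtooth function by odd trigonometric polynomials -/
theorem approx_saw {δ η : ℝ} (hδ : 0 < δ) (hη : 0 < η) :
    ∃ (S : Finset ℤ) (c : ℤ → ℂ), (0 : ℤ) ∉ S ∧ ∀ (m : ℕ) [NeZero m] (b : ZMod m), b ≠ 0 →
      (near δ b → ‖((saw b : ℝ) : ℂ) - trig S c b‖ ≤ η + 1) ∧
      (¬ near δ b → ‖((saw b : ℝ) : ℂ) - trig S c b‖ ≤ η) := by
  classical
  obtain ⟨S, c, hc, h⟩ := approx_circle hδ hη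
  set S0 : Finset ℤ := S ∪ S.image (fun r => -r) with hS0
  refine ⟨S0.erase 0, fun r => (c r - c (-r)) / 2, Finset.notMem_erase 0 S0, fun m _ b hb => ?_⟩
  have hsym : ∀ r, r ∈ S0 → -r ∈ S0 := by
    intro r hr
    rw [hS0, Finset.mem_union, Finset.mem_image] at hr ⊢
    rcases hr with h1 | ⟨s, hs, rfl⟩
    · exact Or.inr ⟨r, h1, rfl⟩
    · left; rwa [neg_neg]
  have e1 : ∑ r ∈ S0, c r * ee ((r : ZMod m) * b) = trig S c b := by
    unfold trig
    symm
    refine Finset.sum_subset Finset.subset_union_left fun r _ hr => ?_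
    rw [hc r hr, zero_mul]
  have e2 : ∑ r ∈ S0, c (-r) * ee ((r : ZMod m) * b) = trig S c (-b) := by
    have e3 : ∑ r ∈ S0, c (-r) * ee ((r : ZMod m) * b) = ∑ r ∈ S0, c r * ee ((r : ZMod m) * (-b)) := by
      refine Finset.sum_nbij' (fun r => -r) (fun r => -r) hsym hsym ?_ ?_ ?_
      · intro r _; simp
      · intro r _; simp
      · intro r _
        congr 2
        push_cast
        ring
    rw [e3]
    unfold trig
    symm
    refine Finset.sum_subset Finset.subset_union_left fun r _ hr => ?_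
    rw [hc r hr, zero_mul]
  have e4 : trig (S0.erase 0) (fun r => (c r - c (-r)) / 2) b = (trig S c b - trig S c (-b)) / 2 := by
    rw [← e1, ← e2, ← Finset.sum_sub_distrib, Finset.sum_div]
    unfold trig
    rw [Finset.sum_erase]
    · refine Finset.sum_congr rfl fun r _ => ?_
      ring
    · simp
  have e5 : ((saw b : ℝ) : ℂ) - trig (S0.erase 0) (fun r => (c r - c (-r)) / 2) b
      = (((saw b : ℝ) : ℂ) - trig S c b) / 2 - (((saw (-b) : ℝ) : ℂ) - trig S c (-b)) / 2 := by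
    rw [e4, saw_neg hb]
    push_cast
    ring
  have key : ∀ z : ZMod m, (near δ z → ‖((saw z : ℝ) : ℂ) - trig S c z‖ ≤ η + 1) ∧
      (¬ near δ z → ‖((saw z : ℝ) : ℂ) - trig S c z‖ ≤ η) := by
    intro z
    have h1 := h m z
    have h2 : ((saw z : ℝ) : ℂ) - trig S c z
        = -(((gd δ ((z.val : ℝ) / m) - ((z.val : ℝ) / m - 1 / 2) : ℝ)) : ℂ)
          + (((gd δ ((z.val : ℝ) / m) : ℝ) : ℂ) - trig S c z) := by
      unfold saw
      push_cast
      ring
    constructor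
    · intro _
      rw [h2]
      refine (norm_add_le _ _).trans ?_
      rw [norm_neg, Complex.norm_real, Real.norm_eq_abs]
      have := gd_near hδ (val_div_nonneg z) (val_div_lt z).le
      linarith
    · intro hn
      unfold near at hn
      rw [not_or, not_lt, not_lt] at hn
      rw [h2, gd_eq hδ hn.1 hn.2]
      simp only [sub_self, Complex.ofReal_zero, neg_zero, zero_add]
      rw [← gd_eq hδ hn.1 hn.2]
      exact h1
  have hnn := near_neg hb δ
  rw [e5]
  constructor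
  · intro hn
    have h1 := (key b).1 hn
    have h2 := (key (-b)).1 (hnn.mpr hn)
    calc ‖(((saw b : ℝ) : ℂ) - trig S c b) / 2 - (((saw (-b) : ℝ) : ℂ) - trig S c (-b)) / 2‖
        ≤ ‖(((saw b : ℝ) : ℂ) - trig S c b) / 2‖ + ‖(((saw (-b) : ℝ) : ℂ) - trig S c (-b)) / 2‖ :=
          norm_sub_le _ _
      _ = ‖((saw b : ℝ) : ℂ) - trig S c b‖ / 2 + ‖((saw (-b) : ℝ) : ℂ) - trig S c (-b)‖ / 2 := by
          rw [norm_div, norm_div, Complex.norm_ofNat]
      _ ≤ η + 1 := by linarith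
  · intro hn
    have h1 := (key b).2 hn
    have h2 := (key (-b)).2 (fun h => hn (hnn.mp h))
    calc ‖(((saw b : ℝ) : ℂ) - trig S c b) / 2 - (((saw (-b) : ℝ) : ℂ) - trig S c (-b)) / 2‖
        ≤ ‖(((saw b : ℝ) : ℂ) - trig S c b) / 2‖ + ‖(((saw (-b) : ℝ) : ℂ) - trig S c (-b)) / 2‖ :=
          norm_sub_le _ _
      _ = ‖((saw b : ℝ) : ℂ) - trig S c b‖ / 2 + ‖((saw (-b) : ℝ) : ℂ) - trig S c (-b)‖ / 2 := by
          rw [norm_div, norm_div, Complex.norm_ofNat]
      _ ≤ η := by linarith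

end Pool.Agent.Lib.MP_938ce2_ag_h85f
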