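import Mathlib
import Pool.Agent.Lib.MP_938ce2_ag_h85.Totient
import Pool.Agent.Lib.MP_938ce2_ag_h85f.Approx

/-!
Concentration and decorrelation.
-/

set_option autoImplicit false
set_option linter.unusedSectionVars false

namespace Pool.Agent.Lib.MP_938ce2_ag_h85f

open Finset
open scoped ComplexConjugate

section

variable {m : ℕ} [NeZero m]

lemma norm_avg_le (g : (ZMod m)ˣ → ℂ) : ‖avg g‖ ≤ avg fun t => ‖g t‖ := by
  unfold avg
  rw [norm_smul, Real.norm_eq_abs, abs_of_nonneg (by positivity), smul_eq_mul]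
  exact mul_le_mul_of_nonneg_left (norm_sum_le _ _) (by positivity)

lemma avg_mono {g h : (ZMod m)ˣ → ℝ} (hgh : ∀ t, g t ≤ h t) : avg g ≤ avg h := by
  unfold avg
  rw [smul_eq_mul, smul_eq_mul]
  exact mul_le_mul_of_nonneg_left (Finset.sum_le_sum fun t _ => hgh t) (by positivity)

lemma avg_const (c : ℝ) : avg (fun _ : (ZMod m)ˣ => c) = c := by
  unfold avg
  rw [Finset.sum_const, Finset.card_univ, nsmul_eq_mul, smul_eq_mul, ← mul_assoc,
    inv_mul_cancel₀ (card_units_pos (m := m)).ne', one_mul]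

lemma avg_le {g : (ZMod m)ˣ → ℝ} {c : ℝ} (h : ∀ t, g t ≤ c) : avg g ≤ c := by
  have := avg_mono h
  rwa [avg_const] at this

lemma avg_nonneg {g : (ZMod m)ˣ → ℝ} (h : ∀ t, 0 ≤ g t) : 0 ≤ avg g := by
  have := avg_mono h
  rwa [avg_const] at this

lemma avg_add {A : Type} [AddCommGroup A] [Module ℝ A] (g h : (ZMod m)ˣ → A) :
    avg (fun t => g t + h t) = avg g + avg h := by
  unfold avg
  rw [Finset.sum_add_distrib, smul_add]

lemma avg_finsum {A ι : Type} [AddCommGroup A] [Module ℝ A] (s : Finset ι) (g : ι → (ZMod m)ˣ → A) :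
    avg (fun t => ∑ i ∈ s, g i t) = ∑ i ∈ s, avg (g i) := by
  unfold avg
  rw [Finset.sum_comm, Finset.smul_sum]

lemma avg_mul (c : ℝ) (g : (ZMod m)ˣ → ℝ) : avg (fun t => c * g t) = c * avg g := by
  unfold avg
  rw [← Finset.mul_sum, smul_eq_mul, smul_eq_mul]; ring

lemma avg_cmul (c : ℂ) (g : (ZMod m)ˣ → ℂ) : avg (fun t => c * g t) = c * avg g := by
  unfold avg
  rw [← Finset.mul_sum, Complex.real_smul, Complex.real_smul]; ring

lemma avg_ofReal (g : (ZMod m)ˣ → ℝ) : ((avg g : ℝ) : ℂ) = avg fun t => ((g t : ℝ) : ℂ) := by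
  unfold avg
  rw [Complex.real_smul, smul_eq_mul]
  push_cast
  rfl

lemma avg_re (g : (ZMod m)ˣ → ℂ) : (avg g).re = avg fun t => (g t).re := by
  unfold avg
  rw [Complex.real_smul, Complex.re_ofReal_mul, Complex.re_sum, smul_eq_mul]

lemma conj_ee (y : ZMod m) : conj (ee y) = ee (-y) := (AddChar.map_neg_eq_conj _ _).symm

lemma norm_sq_sum (N : ℕ) (b : ZMod m) :
    ‖∑ r ∈ range N, ee ((r : ZMod m) * b)‖ ^ 2
      = ∑ r ∈ range N, ∑ s ∈ range N, (ee ((((r : ℤ) - (s : ℤ) : ℤ) : ZMod m) * b)).re := by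
  have h1 : ((‖∑ r ∈ range N, ee ((r : ZMod m) * b)‖ ^ 2 : ℝ) : ℂ)
      = ∑ r ∈ range N, ∑ s ∈ range N, ee ((((r : ℤ) - (s : ℤ) : ℤ) : ZMod m) * b) := by
    rw [Complex.ofReal_pow, ← Complex.mul_conj', map_sum, Finset.sum_mul_sum]
    refine Finset.sum_congr rfl fun r _ => Finset.sum_congr rfl fun s _ => ?_
    rw [conj_ee, ← ee_add]
    congr 1
    push_cast
    ring
  have h2 := congrArg Complex.re h1
  rw [Complex.ofReal_re, Complex.re_sum] at h2
  rw [h2]
  exact Finset.sum_congr rfl fun r _ => Complex.re_sum _ _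

lemma re_ee_near {N : ℕ} {r : ℕ} (hr : r < N) {b : ZMod m} (hb : near (1 / (6 * N)) b) :
    1 / 2 ≤ (ee ((r : ZMod m) * b)).re := by
  have hN : (0 : ℝ) < N := by
    have : 0 < N := by omega
    exact_mod_cast this
  have hrN : (r : ℝ) ≤ N := by exact_mod_cast hr.le
  set y : ℝ := (b.val : ℝ) / m with hy
  have e1 : (ee ((r : ZMod m) * b)).re = Real.cos (2 * Real.pi * (r * y)) := by
    have h1 := ee_int_mul (m := m) (r : ℤ) b
    rw [Int.cast_natCast] at h1
    rw [h1, ← hy]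
    have h2 : (2 * Real.pi * Complex.I * (((r : ℕ) : ℤ) * (y : ℝ)) : ℂ)
        = ((2 * Real.pi * (r * y) : ℝ) : ℂ) * Complex.I := by push_cast; ring
    rw [h2, Complex.exp_ofReal_mul_I_re]
  rw [e1, ← Real.cos_pi_div_three]
  have key : ∀ z : ℝ, 0 ≤ z → z < 1 / (6 * N) →
      Real.cos (Real.pi / 3) ≤ Real.cos (2 * Real.pi * (r * z)) := by
    intro z h0 h1
    have h2 : (r : ℝ) * z ≤ 1 / 6 := by
      calc (r : ℝ) * z ≤ N * (1 / (6 * N)) := mul_le_mul hrN h1.le h0 hN.le
        _ = 1 / 6 := by field_simp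
    have h3 : 0 ≤ (r : ℝ) * z := by positivity
    have hpi := Real.pi_pos
    refine Real.cos_le_cos_of_nonneg_of_le_pi (by positivity) (by linarith) ?_
    nlinarith
  rcases hb with h | h
  · exact key y (val_div_nonneg b) h
  · have h1 := key (1 - y) (by have := val_div_lt b; linarith) h
    have h2 : (2 : ℝ) * Real.pi * (r * y) = r * (2 * Real.pi) - 2 * Real.pi * (r * (1 - y)) := by ring
    rw [h2, Real.cos_nat_mul_two_pi_sub]
    exact h1

open Classical in
lemma indicator_le {N : ℕ} (hN : 1 ≤ N) (b : ZMod m) :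
    (if near (1 / (6 * N)) b then (1 : ℝ) else 0)
      ≤ 4 / N ^ 2 * ‖∑ r ∈ range N, ee ((r : ZMod m) * b)‖ ^ 2 := by
  have hN' : (0 : ℝ) < N := by exact_mod_cast hN
  split_ifs with h
  · have h1 : (N : ℝ) / 2 ≤ (∑ r ∈ range N, ee ((r : ZMod m) * b)).re := by
      rw [Complex.re_sum]
      calc (N : ℝ) / 2 = ∑ r ∈ range N, (1 / 2 : ℝ) := by simp; ring
        _ ≤ _ := Finset.sum_le_sum fun r hr => re_ee_near (Finset.mem_range.mp hr) h
    have h2 := h1.trans (Complex.re_le_norm _)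
    have h3 : ((N : ℝ) / 2) ^ 2 ≤ ‖∑ r ∈ range N, ee ((r : ZMod m) * b)‖ ^ 2 := by gcongr
    rw [div_mul_eq_mul_div, le_div_iff₀ (by positivity)]
    nlinarith
  · positivity

open Classical in
/-- concentration near `0` -/
theorem conc {N : ℕ} (hN : 1 ≤ N) (x : ZMod m) {M : ℝ} (hM : 0 ≤ M)
    (h : ∀ s : ℤ, s ≠ 0 → |s| < N → ‖kap ((s : ZMod m) * x)‖ ≤ M) :
    avg (fun t : (ZMod m)ˣ => if near (1 / (6 * N)) ((t : ZMod m) * x) then (1 : ℝ) else 0)
      ≤ 4 / N + 4 * M := by
  have hN' : (0 : ℝ) < N := by exact_mod_cast hN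
  calc avg (fun t : (ZMod m)ˣ => if near (1 / (6 * N)) ((t : ZMod m) * x) then (1 : ℝ) else 0)
      ≤ avg fun t : (ZMod m)ˣ => 4 / N ^ 2 *
          ‖∑ r ∈ range N, ee ((r : ZMod m) * ((t : ZMod m) * x))‖ ^ 2 :=
        avg_mono fun t => indicator_le hN _
    _ = 4 / N ^ 2 * ∑ r ∈ range N, ∑ s ∈ range N,
          (kap ((((r : ℤ) - (s : ℤ) : ℤ) : ZMod m) * x)).re := by
        rw [avg_mul]
        congr 1
        simp only [norm_sq_sum]
        rw [avg_finsum]
        refine Finset.sum_congr rfl fun r _ => ?_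
        rw [avg_finsum]
        refine Finset.sum_congr rfl fun s _ => ?_
        unfold kap
        rw [avg_re]
        congr 1
        funext t
        congr 2
        ring
    _ ≤ 4 / N ^ 2 * ∑ r ∈ range N, ∑ s ∈ range N, ((if r = s then 1 else 0) + M) := by
        refine mul_le_mul_of_nonneg_left ?_ (by positivity)
        refine Finset.sum_le_sum fun r hr => Finset.sum_le_sum fun s hs => ?_
        split_ifs with hrs
        · subst hrs
          have : kap ((((r : ℤ) - (r : ℤ) : ℤ) : ZMod m) * x) = 1 := by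
            unfold kap
            rw [sub_self, Int.cast_zero, zero_mul]
            simp only [mul_zero, ee_zero]
            have := avg_ofReal (m := m) fun _ => 1
            rw [avg_const] at this
            simpa using this.symm
          rw [this, Complex.one_re]
          linarith
        · have h1 : ((r : ℤ) - (s : ℤ)) ≠ 0 := by omega
          have h2 : |(r : ℤ) - (s : ℤ)| < N := by
            rw [Finset.mem_range] at hr hs
            rw [abs_lt]; omega
          have h3 := h _ h1 h2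
          have := (Complex.re_le_norm _).trans h3
          linarith
    _ = 4 / N + 4 * M := by
        simp only [Finset.sum_add_distrib, Finset.sum_ite_eq, Finset.sum_const, Finset.card_range,
          nsmul_eq_mul]
        rw [Finset.sum_congr rfl fun r hr => if_pos hr]
        simp only [Finset.sum_const, Finset.card_range, nsmul_eq_mul, mul_one]
        field_simp

end

/-- characters of large order have small average -/
lemma kap_small {ε : ℝ} (hε : 0 < ε) :
    ∃ D : ℕ, ∀ (m : ℕ) [NeZero m] (x : ZMod m), D ≤ addOrderOf x → ‖kap x‖ ≤ ε := by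
  refine ⟨⌈2 / ε ^ 2⌉₊ + 1, fun m _ x hx => ?_⟩
  refine (norm_kap_le x).trans ?_
  set R := addOrderOf x
  have h1 : (R : ℝ) ≤ 2 * (Nat.totient R : ℝ) ^ 2 := by
    exact_mod_cast Pool.Agent.Lib.MP_938ce2_ag_h85.le_two_mul_totient_sq R
  have h2 : 2 / ε ^ 2 ≤ R := by
    have h3 := Nat.le_ceil (2 / ε ^ 2)
    have h4 : ((⌈2 / ε ^ 2⌉₊ + 1 : ℕ) : ℝ) ≤ R := by exact_mod_cast hx
    push_cast at h4
    linarith
  have hφ : (0 : ℝ) < Nat.totient R := by
    have : 0 < R := by omega
    exact_mod_cast Nat.totient_pos.mpr this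
  rw [div_le_iff₀ hφ]
  rw [div_le_iff₀ (by positivity)] at h2
  have h3 : (1 : ℝ) ^ 2 ≤ (ε * Nat.totient R) ^ 2 := by
    nlinarith [mul_le_mul_of_nonneg_right h1 (sq_nonneg ε)]
  exact le_of_sq_le_sq h3 (by positivity)

section

variable {m : ℕ} [NeZero m]

lemma order_le_mul (x : ZMod m) {s : ℤ} (hs : s ≠ 0) :
    addOrderOf x ≤ s.natAbs * addOrderOf ((s : ZMod m) * x) := by
  set R := addOrderOf ((s : ZMod m) * x)
  have h1 : R • ((s : ZMod m) * x) = 0 := addOrderOf_nsmul_eq_zero _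
  have h2 : ((R : ℤ) * s) • x = 0 := by
    rw [zsmul_eq_mul]
    push_cast
    rw [nsmul_eq_mul] at h1
    rw [mul_assoc]
    exact h1
  have h3 := addOrderOf_dvd_iff_zsmul_eq_zero.mpr h2
  have h4 : addOrderOf x ∣ R * s.natAbs := by
    have := Int.natAbs_dvd_natAbs.mpr h3
    rwa [Int.natAbs_natCast, Int.natAbs_mul, Int.natAbs_natCast] at this
  rw [mul_comm]
  exact Nat.le_of_dvd (Nat.mul_pos (addOrderOf_pos _) (Int.natAbs_pos.mpr hs)) h4

lemma unit_mul_ne_zero (t : (ZMod m)ˣ) {x : ZMod m} (hx : x ≠ 0) : (t : ZMod m) * x ≠ 0 := by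
  intro h
  exact hx ((Units.mul_right_eq_zero t).mp h)

/-- points of small order are not close to `0` -/
lemma not_near_of_order {b : ZMod m} (hb : b ≠ 0) {L : ℕ} (hL : addOrderOf b ≤ L) {δ : ℝ}
    (hδ : δ * L ≤ 1) (hδ0 : 0 < δ) : ¬ near δ b := by
  set R := addOrderOf b with hR
  have hR0 : 0 < R := addOrderOf_pos b
  have hR0' : (0 : ℝ) < R := by exact_mod_cast hR0
  have key : ∀ c : ZMod m, c ≠ 0 → R • c = 0 → 1 / (R : ℝ) ≤ (c.val : ℝ) / m := by
    intro c hc h
    rw [div_le_div_iff₀ hR0' m_pos, one_mul]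
    have h1 : m ∣ R * c.val := by
      rw [← ZMod.natCast_eq_zero_iff]
      push_cast
      rw [ZMod.natCast_val, ZMod.cast_id, ← nsmul_eq_mul]
      exact h
    have h2 : 0 < c.val := by
      rcases Nat.eq_zero_or_pos c.val with h | h
      · exact absurd ((ZMod.val_eq_zero c).mp h) hc
      · exact h
    have h3 := Nat.le_of_dvd (Nat.mul_pos hR0 h2) h1
    rw [mul_comm]
    exact_mod_cast h3
  have h1 := key b hb (addOrderOf_nsmul_eq_zero b)
  have h2 := key (-b) (neg_ne_zero.mpr hb) (by rw [smul_neg, addOrderOf_nsmul_eq_zero, neg_zero])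
  rw [val_neg hb] at h2
  have h3 : δ ≤ 1 / R := by
    rw [le_div_iff₀ hR0']
    have : (R : ℝ) ≤ L := by exact_mod_cast hL
    nlinarith
  unfold near
  rw [not_or, not_lt, not_lt]
  exact ⟨h3.trans h1, h3.trans h2⟩

lemma addOrderOf_unit_mul (t : (ZMod m)ˣ) (x : ZMod m) :
    addOrderOf ((t : ZMod m) * x) = addOrderOf x :=
  addOrderOf_injective (AddMonoidHom.mulLeft (t : ZMod m)) (by
    intro a b h
    exact (Units.mul_right_inj t).mp h) x

end

/-- one scale: the sawtooth function is approximated, in mean, by one trigonometric polynomial at all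
points whose order is small or large -/
theorem scale {η : ℝ} (hη : 0 < η) (hη1 : η ≤ 1) (L : ℕ) : ∃ (S : Finset ℤ) (c : ℤ → ℂ) (D : ℕ),
    (0 : ℤ) ∉ S ∧
    (∀ (m : ℕ) [NeZero m] (b : ZMod m), b ≠ 0 → ‖trig S c b‖ ≤ 3) ∧
    ∀ (m : ℕ) [NeZero m] (x : ZMod m), x ≠ 0 → (addOrderOf x ≤ L ∨ D ≤ addOrderOf x) →
      avg (fun t : (ZMod m)ˣ => ‖((saw ((t : ZMod m) * x) : ℝ) : ℂ) - trig S c ((t : ZMod m) * x)‖)
        ≤ η := by
  classical
  -- choice of the width
  obtain ⟨N, hN⟩ : ∃ N : ℕ, 1 ≤ N ∧ L ≤ N ∧ (4 : ℝ) / N ≤ η / 4 := by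
    refine ⟨max (max 1 L) ⌈16 / η⌉₊, ?_, ?_, ?_⟩
    · exact (le_max_left _ _).trans (le_max_left _ _)
    · exact (le_max_right _ _).trans (le_max_left _ _)
    · have h1 : 16 / η ≤ (max (max 1 L) ⌈16 / η⌉₊ : ℕ) :=
        (Nat.le_ceil _).trans (by exact_mod_cast le_max_right _ _)
      have h2 : (0 : ℝ) < (max (max 1 L) ⌈16 / η⌉₊ : ℕ) := lt_of_lt_of_le (by positivity) h1
      rw [div_le_iff₀ h2]
      rw [div_le_iff₀ hη] at h1
      linarith
  obtain ⟨hN1, hNL, hN4⟩ := hN
  have hN' : (0 : ℝ) < N := by exact_mod_cast hN1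
  have hδ : (0 : ℝ) < 1 / (6 * N) := by positivity
  obtain ⟨S, c, h0, happ⟩ := approx_saw hδ (half_pos hη)
  obtain ⟨D0, hD0⟩ := kap_small (ε := η / 16) (by positivity)
  refine ⟨S, c, N * D0, h0, ?_, ?_⟩
  · intro m _ b hb
    have h1 : ‖((saw b : ℝ) : ℂ) - trig S c b‖ ≤ η / 2 + 1 := by
      by_cases h : near (1 / (6 * N)) b
      · exact (happ m b hb).1 h
      · exact ((happ m b hb).2 h).trans (by linarith)
    have h2 : ‖((saw b : ℝ) : ℂ)‖ ≤ 1 / 2 := by
      rw [Complex.norm_real, Real.norm_eq_abs]; exact abs_saw_le b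
    have h3 : ‖trig S c b‖ ≤ ‖((saw b : ℝ) : ℂ)‖ + ‖((saw b : ℝ) : ℂ) - trig S c b‖ := by
      have := norm_sub_le ((saw b : ℝ) : ℂ) (((saw b : ℝ) : ℂ) - trig S c b)
      rwa [sub_sub_cancel] at this
    linarith
  · intro m _ x hx hord
    have hpt : ∀ t : (ZMod m)ˣ,
        ‖((saw ((t : ZMod m) * x) : ℝ) : ℂ) - trig S c ((t : ZMod m) * x)‖
          ≤ η / 2 + (if near (1 / (6 * N)) ((t : ZMod m) * x) then (1 : ℝ) else 0) := by
      intro t
      have hne := unit_mul_ne_zero t hx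
      split_ifs with h
      · exact (happ m _ hne).1 h
      · rw [add_zero]; exact (happ m _ hne).2 h
    refine (avg_mono hpt).trans ?_
    rw [avg_add, avg_const]
    have h1 : avg (fun t : (ZMod m)ˣ => if near (1 / (6 * N)) ((t : ZMod m) * x) then (1 : ℝ) else 0)
        ≤ η / 2 := by
      rcases hord with h | h
      · refine avg_le fun t => ?_
        rw [if_neg]
        · positivity
        · refine not_near_of_order (unit_mul_ne_zero t hx) (L := L)
            (by rw [addOrderOf_unit_mul]; exact h) ?_ hδ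
          have : (L : ℝ) ≤ N := by exact_mod_cast hNL
          rw [div_mul_eq_mul_div, one_mul, div_le_one (by positivity)]
          linarith
      · have h2 := conc (m := m) hN1 x (M := η / 16) (by positivity) (by
          intro s hs hsN
          refine hD0 m _ ?_
          have h3 := order_le_mul x hs
          have h4 : s.natAbs ≤ N := by
            rw [Int.abs_eq_natAbs] at hsN
            omega
          have h5 : N * D0 ≤ N * addOrderOf ((s : ZMod m) * x) :=
            h.trans (h3.trans (Nat.mul_le_mul_right _ h4))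
          exact Nat.le_of_mul_le_mul_left h5 hN1)
        linarith
    linarith

end Pool.Agent.Lib.MP_938ce2_ag_h85f
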