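import Mathlib
import Pool.Agent.Lib.MP_938ce2_ag_h85f.Decor

/-!
Lower bounds for the mean square of a short sum of sawtooth values.
-/

set_option autoImplicit false
set_option linter.unusedSectionVars false

namespace Pool.Agent.Lib.MP_938ce2_ag_h85f

open Finset
open scoped ComplexConjugate

variable {m : ℕ} [NeZero m]

lemma exp_saw (b : ZMod m) : Complex.exp (2 * Real.pi * Complex.I * (saw b : ℝ)) = - ee b := by
  have h1 := ee_int_mul (m := m) 1 b
  rw [Int.cast_one, one_mul] at h1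
  rw [h1]
  have h2 : (2 * Real.pi * Complex.I * (((1 : ℤ) : ℂ) * (((b.val : ℝ) / m : ℝ) : ℂ)) : ℂ)
      = 2 * Real.pi * Complex.I * (saw b : ℝ) + Real.pi * Complex.I := by
    unfold saw
    push_cast
    ring
  rw [h2, Complex.exp_add, Complex.exp_pi_mul_I]
  ring

lemma ee_sum {ι : Type} (C : Finset ι) (x : ι → ZMod m) : ee (∑ i ∈ C, x i) = ∏ i ∈ C, ee (x i) := by
  classical
  induction C using Finset.induction_on with
  | empty => simp [ee_zero]
  | insert a s ha ih => rw [Finset.sum_insert ha, Finset.prod_insert ha, ee_add, ih]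

lemma exp_sum_saw {ι : Type} (C : Finset ι) (x : ι → ZMod m) (t : (ZMod m)ˣ) :
    Complex.exp (2 * Real.pi * Complex.I * ((∑ i ∈ C, saw ((t : ZMod m) * x i) : ℝ) : ℂ))
      = (-1) ^ C.card * ee ((t : ZMod m) * ∑ i ∈ C, x i) := by
  rw [Complex.ofReal_sum, Finset.mul_sum, Complex.exp_sum, Finset.mul_sum, ee_sum,
    ← Finset.prod_const, ← Finset.prod_mul_distrib]
  refine Finset.prod_congr rfl fun i _ => ?_
  rw [exp_saw]
  ring

theorem lower {ι : Type} (C : Finset ι) (x : ι → ZMod m)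
    (h : (-1) ^ C.card * (kap (∑ i ∈ C, x i)).re ≤ 1 / 2) :
    1 / (4 * Real.pi ^ 2) ≤ avg fun t : (ZMod m)ˣ => (∑ i ∈ C, saw ((t : ZMod m) * x i)) ^ 2 := by
  have hpi := Real.pi_pos
  have hpt : ∀ t : (ZMod m)ˣ,
      2 - 2 * ((-1) ^ C.card * (ee ((t : ZMod m) * ∑ i ∈ C, x i)).re)
        ≤ 4 * Real.pi ^ 2 * (∑ i ∈ C, saw ((t : ZMod m) * x i)) ^ 2 := by
    intro t
    set F : ℝ := ∑ i ∈ C, saw ((t : ZMod m) * x i) with hF
    set w : ℂ := (-1) ^ C.card * ee ((t : ZMod m) * ∑ i ∈ C, x i) with hw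
    have h1 : Complex.exp (Complex.I * ((2 * Real.pi * F : ℝ) : ℂ)) = w := by
      rw [hw, ← exp_sum_saw, ← hF]
      congr 1
      push_cast
      ring
    have h2 := Real.norm_exp_I_mul_ofReal_sub_one_le (x := 2 * Real.pi * F)
    rw [h1] at h2
    have h3 : ‖w‖ = 1 := by
      rw [hw, norm_mul, norm_pow, norm_neg, norm_one, one_pow, norm_ee, one_mul]
    have h4 : ‖w - 1‖ ^ 2 = 2 - 2 * w.re := by
      rw [Complex.sq_norm, Complex.normSq_sub, Complex.normSq_one, map_one, mul_one,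
        Complex.normSq_eq_norm_sq, h3]
      ring
    have h5 : w.re = (-1) ^ C.card * (ee ((t : ZMod m) * ∑ i ∈ C, x i)).re := by
      rw [hw]
      have : ((-1 : ℂ)) ^ C.card = (((-1 : ℝ) ^ C.card : ℝ) : ℂ) := by push_cast; rfl
      rw [this, Complex.re_ofReal_mul]
    rw [← h5, ← h4]
    have h6 : ‖w - 1‖ ^ 2 ≤ ‖2 * Real.pi * F‖ ^ 2 := by gcongr
    rw [Real.norm_eq_abs, sq_abs] at h6
    linarith
  have h1 := avg_mono hpt
  rw [avg_mul] at h1
  have h2 : avg (fun t : (ZMod m)ˣ => 2 - 2 * ((-1) ^ C.card * (ee ((t : ZMod m) * ∑ i ∈ C, x i)).re))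
      = 2 - 2 * ((-1) ^ C.card * (kap (∑ i ∈ C, x i)).re) := by
    have e1 : (fun t : (ZMod m)ˣ => 2 - 2 * ((-1) ^ C.card * (ee ((t : ZMod m) * ∑ i ∈ C, x i)).re))
        = fun t : (ZMod m)ˣ => (2 : ℝ) + (-2 * (-1) ^ C.card) * (ee ((t : ZMod m) * ∑ i ∈ C, x i)).re := by
      funext t; ring
    rw [e1, avg_add, avg_const, avg_mul]
    unfold kap
    rw [avg_re]
    ring
  rw [h2] at h1
  rw [div_le_iff₀ (by positivity)]
  nlinarith

lemma kap_zero : kap (0 : ZMod m) = 1 := by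
  unfold kap
  simp only [mul_zero, ee_zero]
  have := avg_ofReal (m := m) fun _ => 1
  rw [avg_const] at this
  simpa using this.symm

lemma kap_order_two {y : ZMod m} (h0 : y ≠ 0) (h2 : y + y = 0) : kap y = -1 := by
  have h1 : ∀ t : (ZMod m)ˣ, ee ((t : ZMod m) * y) = -1 := by
    intro t
    have e1 : ee ((t : ZMod m) * y) * ee ((t : ZMod m) * y) = 1 := by
      rw [← ee_add, ← mul_add, h2, mul_zero, ee_zero]
    have e2 : ee ((t : ZMod m) * y) ≠ 1 := by
      intro h
      have h3 : ee ((t : ZMod m) * y) = ee (0 : ZMod m) := h.trans ee_zero.symm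
      exact unit_mul_ne_zero t h0 (ZMod.injective_stdAddChar h3)
    rcases mul_self_eq_one_iff.mp e1 with h | h
    · exact absurd h e2
    · exact h
  unfold kap
  simp only [h1]
  have := avg_ofReal (m := m) fun _ => -1
  rw [avg_const] at this
  simpa using this.symm

lemma two_le_totient {R : ℕ} (hR : 3 ≤ R) : 2 ≤ Nat.totient R := by
  have h1 : Even (Nat.totient R) := Nat.totient_even (by omega)
  have h2 : 0 < Nat.totient R := Nat.totient_pos.mpr (by omega)
  obtain ⟨a, ha⟩ := h1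
  omega

lemma norm_kap_le_half {y : ZMod m} (h0 : y ≠ 0) (h2 : y + y ≠ 0) : ‖kap y‖ ≤ 1 / 2 := by
  refine (norm_kap_le y).trans ?_
  have h3 : 3 ≤ addOrderOf y := by
    have h4 : 0 < addOrderOf y := addOrderOf_pos y
    have h5 : addOrderOf y ≠ 1 := fun h => h0 (AddMonoid.addOrderOf_eq_one_iff.mp h)
    have h6 : addOrderOf y ≠ 2 := by
      intro h
      have := addOrderOf_nsmul_eq_zero y
      rw [h, two_nsmul] at this
      exact h2 this
    omega
  have h4 : (2 : ℝ) ≤ Nat.totient (addOrderOf y) := by exact_mod_cast two_le_totient h3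
  exact one_div_le_one_div_of_le (by norm_num) h4

/-- one point -/
theorem lower_one {ι : Type} (x : ι → ZMod m) (i : ι) (h0 : x i ≠ 0) (h2 : x i + x i ≠ 0) :
    1 / (4 * Real.pi ^ 2) ≤ avg fun t : (ZMod m)ˣ => (∑ i ∈ {i}, saw ((t : ZMod m) * x i)) ^ 2 := by
  refine lower {i} x ?_
  rw [Finset.card_singleton, Finset.sum_singleton, pow_one]
  have h1 := norm_kap_le_half h0 h2
  have h3 := (abs_le.mp (Complex.abs_re_le_norm (kap (x i)))).1
  linarith

/-- two points -/
theorem lower_two {ι : Type} [DecidableEq ι] (x : ι → ZMod m) (i j : ι) (hij : i ≠ j)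
    (h0 : x i + x j ≠ 0) :
    1 / (4 * Real.pi ^ 2) ≤ avg fun t : (ZMod m)ˣ => (∑ i ∈ {i, j}, saw ((t : ZMod m) * x i)) ^ 2 := by
  refine lower {i, j} x ?_
  rw [Finset.card_pair hij, Finset.sum_pair hij, neg_one_sq, one_mul]
  by_cases h2 : (x i + x j) + (x i + x j) = 0
  · rw [kap_order_two h0 h2]
    norm_num
  · exact (Complex.re_le_norm _).trans (norm_kap_le_half h0 h2)

end Pool.Agent.Lib.MP_938ce2_ag_h85f
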