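import Mathlib
import Pool.Agent.Lib.MP_938ce2_ag_h85f.Decor

/-!
Decorrelation of the sawtooth function at unlinked points.
-/

set_option autoImplicit false
set_option linter.unusedSectionVars false

namespace Pool.Agent.Lib.MP_938ce2_ag_h85f

open Finset
open scoped ComplexConjugate

/-- two elements related by small nonzero multipliers -/
def link {m : ℕ} (B : ℕ) (x y : ZMod m) : Prop :=
  ∃ u v : ℤ, u ≠ 0 ∧ v ≠ 0 ∧ u.natAbs ≤ B ∧ v.natAbs ≤ B ∧ (u : ZMod m) * x = (v : ZMod m) * y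

lemma link_mono {m B B' : ℕ} (h : B ≤ B') {x y : ZMod m} (hl : link B x y) : link B' x y := by
  obtain ⟨u, v, hu, hv, hu', hv', e⟩ := hl
  exact ⟨u, v, hu, hv, hu'.trans h, hv'.trans h, e⟩

lemma link_symm {m B : ℕ} {x y : ZMod m} (hl : link B x y) : link B y x := by
  obtain ⟨u, v, hu, hv, hu', hv', e⟩ := hl
  exact ⟨v, u, hv, hu, hv', hu', e.symm⟩

lemma link_refl {m B : ℕ} (hB : 1 ≤ B) (x : ZMod m) : link B x x :=
  ⟨1, 1, one_ne_zero, one_ne_zero, by simpa using hB, by simpa using hB, rfl⟩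

lemma link_trans {m B B' : ℕ} {x y z : ZMod m} (h : link B x y) (h' : link B' y z) :
    link (B * B') x z := by
  obtain ⟨u, v, hu, hv, hu1, hv1, e⟩ := h
  obtain ⟨u', v', hu', hv', hu1', hv1', e'⟩ := h'
  refine ⟨u * u', v * v', mul_ne_zero hu hu', mul_ne_zero hv hv', ?_, ?_, ?_⟩
  · rw [Int.natAbs_mul]; exact Nat.mul_le_mul hu1 hu1'
  · rw [Int.natAbs_mul]; exact Nat.mul_le_mul hv1 hv1'
  · push_cast
    calc (u : ZMod m) * u' * x = u' * (u * x) := by ring
      _ = v * (u' * y) := by rw [e]; ring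
      _ = v * v' * z := by rw [e']; ring

section

variable {m : ℕ} [NeZero m]

lemma avg_trig_mul (S : Finset ℤ) (c : ℤ → ℂ) (x y : ZMod m) :
    avg (fun t : (ZMod m)ˣ => trig S c ((t : ZMod m) * x) * trig S c ((t : ZMod m) * y))
      = ∑ r ∈ S, ∑ s ∈ S, c r * c s * kap ((r : ZMod m) * x + (s : ZMod m) * y) := by
  unfold trig
  simp only [Finset.sum_mul_sum]
  rw [avg_finsum]
  refine Finset.sum_congr rfl fun r _ => ?_
  rw [avg_finsum]
  refine Finset.sum_congr rfl fun s _ => ?_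
  unfold kap
  rw [← avg_cmul]
  congr 1
  funext t
  rw [mul_add, ee_add]
  have e1 : (r : ZMod m) * ((t : ZMod m) * x) = (t : ZMod m) * ((r : ZMod m) * x) := by ring
  have e2 : (s : ZMod m) * ((t : ZMod m) * y) = (t : ZMod m) * ((s : ZMod m) * y) := by ring
  rw [e1, e2]
  ring

/-- a small order of a combination gives a link -/
lemma link_of_order {x y : ZMod m} {r s : ℤ} (hr : r ≠ 0) (hs : s ≠ 0) {N D B : ℕ}
    (hrN : r.natAbs ≤ N) (hsN : s.natAbs ≤ N) (hD : addOrderOf ((r : ZMod m) * x + (s : ZMod m) * y) ≤ D)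
    (hB : D * N ≤ B) : link B x y := by
  set q := addOrderOf ((r : ZMod m) * x + (s : ZMod m) * y) with hq
  have hq0 : 0 < q := addOrderOf_pos _
  have h1 : q • ((r : ZMod m) * x + (s : ZMod m) * y) = 0 := addOrderOf_nsmul_eq_zero _
  refine ⟨q * r, -(q * s), ?_, ?_, ?_, ?_, ?_⟩
  · exact mul_ne_zero (by exact_mod_cast hq0.ne') hr
  · exact neg_ne_zero.mpr (mul_ne_zero (by exact_mod_cast hq0.ne') hs)
  · rw [Int.natAbs_mul, Int.natAbs_natCast]
    exact (Nat.mul_le_mul hD hrN).trans hB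
  · rw [Int.natAbs_neg, Int.natAbs_mul, Int.natAbs_natCast]
    exact (Nat.mul_le_mul hD hsN).trans hB
  · rw [nsmul_eq_mul] at h1
    push_cast
    linear_combination h1

end

/-- decorrelation for two points, both of small or large order -/
theorem pair_one {η : ℝ} (hη : 0 < η) (hη1 : η ≤ 1) (L : ℕ) : ∃ D B : ℕ,
    ∀ (m : ℕ) [NeZero m] (x y : ZMod m), x ≠ 0 → y ≠ 0 →
      (addOrderOf x ≤ L ∨ D ≤ addOrderOf x) → (addOrderOf y ≤ L ∨ D ≤ addOrderOf y) →
      ¬ link B x y →
      |avg fun t : (ZMod m)ˣ => saw ((t : ZMod m) * x) * saw ((t : ZMod m) * y)| ≤ η := by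
  classical
  obtain ⟨S, c, D, h0, hb, happ⟩ := scale (η := η / 8) (by positivity) (by linarith) L
  set M := ∑ r ∈ S, ‖c r‖ with hM
  have hM0 : 0 ≤ M := Finset.sum_nonneg fun r _ => norm_nonneg _
  obtain ⟨D0, hD0⟩ := kap_small (ε := η / (2 * (M ^ 2 + 1))) (by positivity)
  set N := S.sup Int.natAbs with hN
  refine ⟨D, D0 * N, fun m _ x y hx hy hox hoy hnl => ?_⟩
  have hX := happ m x hx hox
  have hY := happ m y hy hoy
  -- the main term
  have hmain : ‖avg (fun t : (ZMod m)ˣ => trig S c ((t : ZMod m) * x) * trig S c ((t : ZMod m) * y))‖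
      ≤ η / 2 := by
    rw [avg_trig_mul]
    calc ‖∑ r ∈ S, ∑ s ∈ S, c r * c s * kap ((r : ZMod m) * x + (s : ZMod m) * y)‖
        ≤ ∑ r ∈ S, ∑ s ∈ S, ‖c r‖ * ‖c s‖ * (η / (2 * (M ^ 2 + 1))) := by
          refine (norm_sum_le _ _).trans (Finset.sum_le_sum fun r hr => ?_)
          refine (norm_sum_le _ _).trans (Finset.sum_le_sum fun s hs => ?_)
          rw [norm_mul, norm_mul]
          refine mul_le_mul_of_nonneg_left ?_ (by positivity)
          refine hD0 m _ ?_
          by_contra hlt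
          rw [not_le] at hlt
          refine hnl (link_of_order (N := N) (D := D0) ?_ ?_ ?_ ?_ hlt.le le_rfl)
          · exact fun h => h0 (h ▸ hr)
          · exact fun h => h0 (h ▸ hs)
          · exact Finset.le_sup (f := Int.natAbs) hr
          · exact Finset.le_sup (f := Int.natAbs) hs
      _ = M ^ 2 * (η / (2 * (M ^ 2 + 1))) := by
          rw [hM, sq, Finset.sum_mul_sum, Finset.sum_mul]
          refine Finset.sum_congr rfl fun r _ => ?_
          rw [Finset.sum_mul]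
      _ ≤ η / 2 := by
          rw [mul_div_assoc', div_le_div_iff₀ (by positivity) (by norm_num)]
          nlinarith [sq_nonneg M]
  -- the error
  have herr : ‖avg (fun t : (ZMod m)ˣ =>
      ((saw ((t : ZMod m) * x) : ℝ) : ℂ) * ((saw ((t : ZMod m) * y) : ℝ) : ℂ)
        - trig S c ((t : ZMod m) * x) * trig S c ((t : ZMod m) * y))‖ ≤ η / 2 := by
    refine (norm_avg_le _).trans ?_
    have hpt : ∀ t : (ZMod m)ˣ,
        ‖((saw ((t : ZMod m) * x) : ℝ) : ℂ) * ((saw ((t : ZMod m) * y) : ℝ) : ℂ)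
          - trig S c ((t : ZMod m) * x) * trig S c ((t : ZMod m) * y)‖
        ≤ 1 / 2 * ‖((saw ((t : ZMod m) * y) : ℝ) : ℂ) - trig S c ((t : ZMod m) * y)‖
          + 3 * ‖((saw ((t : ZMod m) * x) : ℝ) : ℂ) - trig S c ((t : ZMod m) * x)‖ := by
      intro t
      have e : ((saw ((t : ZMod m) * x) : ℝ) : ℂ) * ((saw ((t : ZMod m) * y) : ℝ) : ℂ)
          - trig S c ((t : ZMod m) * x) * trig S c ((t : ZMod m) * y)
          = ((saw ((t : ZMod m) * x) : ℝ) : ℂ) *
              (((saw ((t : ZMod m) * y) : ℝ) : ℂ) - trig S c ((t : ZMod m) * y))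
            + trig S c ((t : ZMod m) * y) *
              (((saw ((t : ZMod m) * x) : ℝ) : ℂ) - trig S c ((t : ZMod m) * x)) := by ring
      rw [e]
      refine (norm_add_le _ _).trans ?_
      rw [norm_mul, norm_mul, Complex.norm_real, Real.norm_eq_abs]
      have h1 := abs_saw_le ((t : ZMod m) * x)
      have h2 := hb m ((t : ZMod m) * y) (unit_mul_ne_zero t hy)
      gcongr
    refine (avg_mono hpt).trans ?_
    rw [avg_add, avg_mul, avg_mul]
    linarith
  have hfin : ((avg fun t : (ZMod m)ˣ => saw ((t : ZMod m) * x) * saw ((t : ZMod m) * y) : ℝ) : ℂ)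
      = avg (fun t : (ZMod m)ˣ => trig S c ((t : ZMod m) * x) * trig S c ((t : ZMod m) * y))
        + avg (fun t : (ZMod m)ˣ =>
      ((saw ((t : ZMod m) * x) : ℝ) : ℂ) * ((saw ((t : ZMod m) * y) : ℝ) : ℂ)
        - trig S c ((t : ZMod m) * x) * trig S c ((t : ZMod m) * y)) := by
    rw [← avg_add, avg_ofReal]
    congr 1
    funext t
    push_cast
    ring
  rw [← Real.norm_eq_abs, ← Complex.norm_real, hfin]
  refine (norm_add_le _ _).trans ?_
  linarith

/-- decorrelation for tuples -/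
theorem pair_all (k : ℕ) {η : ℝ} (hη : 0 < η) (hη1 : η ≤ 1) : ∃ B : ℕ,
    ∀ (m : ℕ) [NeZero m] (x : Fin k → ZMod m), (∀ i, x i ≠ 0) → ∀ i j, ¬ link B (x i) (x j) →
      |avg fun t : (ZMod m)ˣ => saw ((t : ZMod m) * x i) * saw ((t : ZMod m) * x j)| ≤ η := by
  classical
  choose D B hDB using fun L => pair_one hη hη1 L
  -- the scales
  let Lh : ℕ → ℕ := fun h => Nat.rec 0 (fun _ L => max L (D L)) h
  have hL0 : ∀ h, Lh (h + 1) = max (Lh h) (D (Lh h)) := fun h => rfl
  have hmono : Monotone Lh := monotone_nat_of_le_succ fun h => by rw [hL0]; exact le_max_left _ _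
  refine ⟨(Finset.range (k + 1)).sup (fun h => B (Lh h)), fun m _ x hx i j hnl => ?_⟩
  -- a good scale
  obtain ⟨h, hh⟩ : ∃ h : Fin (k + 1), ∀ i, addOrderOf (x i) ≤ Lh h ∨ Lh (h + 1) ≤ addOrderOf (x i) := by
    by_contra hcon
    push Not at hcon
    choose f hf1 hf2 using hcon
    obtain ⟨a, b, hab, hfab⟩ := Fintype.exists_ne_map_eq_of_card_lt f (by simp)
    wlog hlt : (a : ℕ) < b generalizing a b with H
    · refine H b a hab.symm hfab.symm ?_
      have : (a : ℕ) ≠ b := fun h => hab (Fin.ext h)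
      omega
    have h1 := hf2 a
    have h2 := hf1 b
    have h3 := hmono (show (a : ℕ) + 1 ≤ b from hlt)
    rw [hfab] at h1
    omega
  have hB : B (Lh h) ≤ (Finset.range (k + 1)).sup (fun h => B (Lh h)) :=
    Finset.le_sup (f := fun h => B (Lh h)) (Finset.mem_range.mpr h.2)
  have hord : ∀ i, addOrderOf (x i) ≤ Lh h ∨ D (Lh h) ≤ addOrderOf (x i) := by
    intro i
    rcases hh i with h1 | h1
    · exact Or.inl h1
    · right
      rw [hL0] at h1
      exact (le_max_right _ _).trans h1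
  exact hDB (Lh h) m (x i) (x j) (hx i) (hx j) (hord i) (hord j) fun hl => hnl (link_mono hB hl)

end Pool.Agent.Lib.MP_938ce2_ag_h85f
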