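import Mathlib
import Pool.Agent.Lib.MP_938ce2_ag_h85f.Defs
import Pool.Agent.Lib.MP_938ce2_ag_h85f.Pair
import Pool.Agent.Lib.MP_938ce2_ag_h85f.Low

/-!
The link graph of a Tate character.
-/

set_option autoImplicit false
set_option linter.unusedSectionVars false

namespace Pool.Agent.Lib.MP_938ce2_ag_h85f

open Finset

/-- fibres: either all have two elements, or at most `l - 1` have more than one element -/
lemma fibres {l : ℕ} {Q : Type} [DecidableEq Q] (f : Fin (2 * l) → Q)
    (hf : ¬ ∀ i, (univ.filter fun j => f j = f i).card = 2) :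
    ((univ.image f).filter fun q => 2 ≤ (univ.filter fun j => f j = q).card).card ≤ l - 1 := by
  classical
  push Not at hf
  obtain ⟨i, hi⟩ := hf
  by_contra hcon
  set T := (univ.image f).filter fun q => 2 ≤ (univ.filter fun j => f j = q).card with hT
  have hl : 0 < 2 * l := (Nat.zero_le _).trans_lt i.2
  have hTl : l ≤ T.card := by omega
  have hsum : ∑ q ∈ univ.image f, (univ.filter fun j => f j = q).card = 2 * l := by
    rw [← Finset.card_eq_sum_card_image]
    simp
  have hsub : T ⊆ univ.image f := Finset.filter_subset _ _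
  have h2 : ∀ q ∈ T, 2 ≤ (univ.filter fun j => f j = q).card := fun q hq => (Finset.mem_filter.mp hq).2
  have hq0 : f i ∈ univ.image f := Finset.mem_image_of_mem f (Finset.mem_univ i)
  have hpos : 0 < (univ.filter fun j => f j = f i).card :=
    Finset.card_pos.mpr ⟨i, by simp⟩
  by_cases hiT : f i ∈ T
  · have h3 : ∑ q ∈ T, 2 < ∑ q ∈ T, (univ.filter fun j => f j = q).card := by
      refine Finset.sum_lt_sum h2 ⟨f i, hiT, ?_⟩
      have := h2 _ hiT
      omega
    have h4 := Finset.sum_le_sum_of_subset (f := fun q => (univ.filter fun j => f j = q).card) hsub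
    rw [hsum] at h4
    rw [Finset.sum_const, smul_eq_mul] at h3
    omega
  · have h3 : insert (f i) T ⊆ univ.image f := Finset.insert_subset hq0 hsub
    have h4 := Finset.sum_le_sum_of_subset (f := fun q => (univ.filter fun j => f j = q).card) h3
    rw [hsum, Finset.sum_insert hiT] at h4
    have h5 : ∑ q ∈ T, 2 ≤ ∑ q ∈ T, (univ.filter fun j => f j = q).card := Finset.sum_le_sum h2
    rw [Finset.sum_const, smul_eq_mul] at h5
    omega

/-- a small finite set is contained in the range of a function -/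
lemma exists_enum {α : Type} [Inhabited α] (T : Finset α) {n : ℕ} (h : T.card ≤ n) :
    ∃ b : Fin n → α, ∀ y ∈ T, ∃ j, b j = y := by
  classical
  refine ⟨fun j => if hj : (j : ℕ) < T.card then (T.equivFin.symm ⟨j, hj⟩ : α) else default, ?_⟩
  intro y hy
  refine ⟨⟨T.equivFin ⟨y, hy⟩, (T.equivFin ⟨y, hy⟩).2.trans_le h⟩, ?_⟩
  have hj : ((T.equivFin ⟨y, hy⟩ : Fin T.card) : ℕ) < T.card := (T.equivFin ⟨y, hy⟩).2
  simp [hj]

section

variable {m : ℕ} [NeZero m]

/-- the link graph -/
def lg {k : ℕ} (B : ℕ) (x : Fin k → ZMod m) : SimpleGraph (Fin k) :=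
  SimpleGraph.fromRel fun i j => link B (x i) (x j)

lemma lg_adj {k B : ℕ} {x : Fin k → ZMod m} {i j : Fin k} (h : (lg B x).Adj i j) :
    link B (x i) (x j) := by
  rw [lg, SimpleGraph.fromRel_adj] at h
  rcases h.2 with h | h
  · exact h
  · exact link_symm h

lemma walk_link {k B : ℕ} {x : Fin k → ZMod m} {i j : Fin k} (p : (lg B x).Walk i j) :
    link (B ^ p.length) (x i) (x j) := by
  induction p with
  | nil => exact link_refl (by simp) _
  | cons h p ih =>
    rw [SimpleGraph.Walk.length_cons, pow_succ']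
    exact link_trans (lg_adj h) ih

lemma reach_link {k B : ℕ} (hB : 1 ≤ B) {x : Fin k → ZMod m} {i j : Fin k}
    (h : (lg B x).Reachable i j) : link (B ^ k) (x i) (x j) := by
  classical
  obtain ⟨p, hp⟩ := h.exists_isPath
  refine link_mono ?_ (walk_link p)
  have h1 := hp.length_lt
  rw [Fintype.card_fin] at h1
  exact Nat.pow_le_pow_right hB h1.le

/-- a union of components has small mean square -/
lemma closed_small {k B : ℕ} {η : ℝ} (hη : 0 ≤ η) {x : Fin k → ZMod m}
    (hF : ∀ t : (ZMod m)ˣ, ∑ i, saw ((t : ZMod m) * x i) = 0)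
    (hdec : ∀ i j, ¬ link B (x i) (x j) →
      |avg fun t : (ZMod m)ˣ => saw ((t : ZMod m) * x i) * saw ((t : ZMod m) * x j)| ≤ η)
    (C : Finset (Fin k)) (hC : ∀ i ∈ C, ∀ j, j ∉ C → ¬ link B (x i) (x j)) :
    avg (fun t : (ZMod m)ˣ => (∑ i ∈ C, saw ((t : ZMod m) * x i)) ^ 2) ≤ (k : ℝ) ^ 2 * η := by
  classical
  have h1 : ∀ t : (ZMod m)ˣ, (∑ i ∈ C, saw ((t : ZMod m) * x i)) ^ 2
      = ∑ i ∈ C, ∑ j ∈ Cᶜ, (-1 : ℝ) * (saw ((t : ZMod m) * x i) * saw ((t : ZMod m) * x j)) := by
    intro t
    have h2 := hF t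
    rw [← Finset.sum_add_sum_compl C] at h2
    have h3 : ∑ i ∈ C, saw ((t : ZMod m) * x i) = - ∑ j ∈ Cᶜ, saw ((t : ZMod m) * x j) := by linarith
    rw [sq]
    nth_rewrite 2 [h3]
    rw [mul_neg, Finset.sum_mul_sum, ← Finset.sum_neg_distrib]
    refine Finset.sum_congr rfl fun i _ => ?_
    rw [← Finset.sum_neg_distrib]
    exact Finset.sum_congr rfl fun j _ => by ring
  simp only [h1]
  rw [avg_finsum]
  calc ∑ i ∈ C, avg (fun t : (ZMod m)ˣ => ∑ j ∈ Cᶜ, (-1 : ℝ) * (saw ((t : ZMod m) * x i) * saw ((t : ZMod m) * x j)))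
      ≤ ∑ i ∈ C, ∑ j ∈ Cᶜ, η := by
        refine Finset.sum_le_sum fun i hi => ?_
        rw [avg_finsum]
        refine Finset.sum_le_sum fun j hj => ?_
        rw [avg_mul]
        have h4 := hdec i j (hC i hi j (Finset.mem_compl.mp hj))
        have h5 := (abs_le.mp h4).1
        linarith
    _ = (C.card : ℝ) * (Cᶜ.card : ℝ) * η := by
        rw [Finset.sum_const, Finset.sum_const, nsmul_eq_mul, nsmul_eq_mul]; ring
    _ ≤ (k : ℝ) ^ 2 * η := by
        have h6 : (C.card : ℝ) ≤ k := by
          have := Finset.card_le_univ C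
          rw [Fintype.card_fin] at this
          exact_mod_cast this
        have h7 : (Cᶜ.card : ℝ) ≤ k := by
          have := Finset.card_le_univ Cᶜ
          rw [Fintype.card_fin] at this
          exact_mod_cast this
        rw [sq]
        gcongr

end

/-- the sum of sawtooth values of a Tate character vanishes -/
lemma tate_saw {m l : ℕ} [NeZero m] {a : Fin (2 * l) → ZMod m} (ha : IsTate m l a) (t : (ZMod m)ˣ) :
    ∑ i, saw ((t : ZMod m) * a i) = 0 := by
  unfold saw
  rw [Finset.sum_sub_distrib, ← Finset.sum_div, ← Nat.cast_sum, ha.2 t]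
  have := (m_pos (m := m)).ne'
  simp
  field_simp
  simp

/-- structure of the indecomposable Tate characters -/
theorem cover (l : ℕ) : ∃ B : ℕ, ∀ (m : ℕ) [NeZero m] (a : Fin (2 * l) → ZMod m),
    IsTate m l a → ¬ Decomposable m l a →
      ∃ b : Fin (l - 1) → ZMod m, ∀ i, a i + a i = 0 ∨ ∃ j, link B (a i) (b j) := by
  classical
  have hpi := Real.pi_pos
  have hpi3 := Real.pi_gt_three
  -- choice of the precision
  set η : ℝ := 1 / (8 * Real.pi ^ 2 * ((2 * l : ℕ) ^ 2 + 1)) with hη
  have hη0 : 0 < η := by positivity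
  have hη1 : η ≤ 1 := by
    rw [hη, div_le_one (by positivity)]
    nlinarith [sq_nonneg ((2 * l : ℕ) : ℝ)]
  have hηk : ((2 * l : ℕ) : ℝ) ^ 2 * η < 1 / (4 * Real.pi ^ 2) := by
    rw [hη, mul_one_div, div_lt_div_iff₀ (by positivity) (by positivity)]
    nlinarith [sq_nonneg ((2 * l : ℕ) : ℝ), sq_nonneg Real.pi, mul_pos hpi hpi,
      mul_nonneg (sq_nonneg ((2 * l : ℕ) : ℝ)) (mul_pos hpi hpi).le]
  obtain ⟨B0, hB0⟩ := pair_all (2 * l) hη0 hη1
  set B := max 1 B0 with hB
  refine ⟨B ^ (2 * l), fun m _ a ha hnd => ?_⟩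
  have hdec : ∀ i j, ¬ link B (a i) (a j) →
      |avg fun t : (ZMod m)ˣ => saw ((t : ZMod m) * a i) * saw ((t : ZMod m) * a j)| ≤ η :=
    fun i j h => hB0 m a ha.1 i j fun h' => h (link_mono (le_max_right _ _) h')
  set G := lg B a with hG
  let f : Fin (2 * l) → G.ConnectedComponent := G.connectedComponentMk
  have hfr : ∀ i j, f i = f j → G.Reachable i j := fun i j h => SimpleGraph.ConnectedComponent.exact h
  have hfl : ∀ i j, f i ≠ f j → ¬ link B (a i) (a j) := by
    intro i j h hl
    have hne : i ≠ j := fun e => h (by rw [e])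
    apply h
    refine SimpleGraph.ConnectedComponent.sound ?_
    refine SimpleGraph.Adj.reachable ?_
    rw [hG, lg, SimpleGraph.fromRel_adj]
    exact ⟨hne, Or.inl hl⟩
  have hsmall : ∀ i, avg (fun t : (ZMod m)ˣ =>
      (∑ j ∈ univ.filter (fun j => f j = f i), saw ((t : ZMod m) * a j)) ^ 2) < 1 / (4 * Real.pi ^ 2) := by
    intro i
    refine (closed_small hη0.le (tate_saw ha) hdec _ ?_).trans_lt hηk
    intro j hj j' hj'
    rw [Finset.mem_filter] at hj hj'
    refine hfl j j' fun h => hj' ⟨Finset.mem_univ _, ?_⟩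
    rw [← h]; exact hj.2
  have hone : ∀ i, univ.filter (fun j => f j = f i) = {i} → a i + a i = 0 := by
    intro i hi
    by_contra hne
    have h1 := lower_one (m := m) a i (ha.1 i) hne
    have h2 := hsmall i
    rw [hi] at h2
    linarith
  have htwo : ∀ i j, i ≠ j → univ.filter (fun j => f j = f i) = {i, j} → a i + a j = 0 := by
    intro i j hij hi
    by_contra hne
    have h1 := lower_two (m := m) a i j hij hne
    have h2 := hsmall i
    rw [hi] at h2
    linarith
  -- not all components are pairs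
  have hnp : ¬ ∀ i, (univ.filter fun j => f j = f i).card = 2 := by
    intro hall
    apply hnd
    have hex : ∀ i, ∃ j, j ≠ i ∧ univ.filter (fun j => f j = f i) = {i, j} := by
      intro i
      obtain ⟨p, q, hpq, he⟩ := Finset.card_eq_two.mp (hall i)
      have hi : i ∈ univ.filter (fun j => f j = f i) := by simp
      rw [he, Finset.mem_insert, Finset.mem_singleton] at hi
      rcases hi with rfl | rfl
      · exact ⟨q, hpq.symm, he⟩
      · exact ⟨p, hpq, by rw [he, Finset.pair_comm]⟩
    choose s hs1 hs2 using hex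
    have hfs : ∀ i, f (s i) = f i := by
      intro i
      have : s i ∈ univ.filter (fun j => f j = f i) := by rw [hs2 i]; simp
      exact (Finset.mem_filter.mp this).2
    have hinv : ∀ i, s (s i) = i := by
      intro i
      have h1 : i ∈ univ.filter (fun j => f j = f (s i)) := by simp [hfs]
      rw [hs2 (s i), Finset.mem_insert, Finset.mem_singleton] at h1
      rcases h1 with h1 | h1
      · exact absurd h1.symm (hs1 i)
      · exact h1.symm
    refine ⟨⟨s, s, hinv, hinv⟩, fun i => ⟨hs1 i, hinv i, ?_⟩⟩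
    have := htwo i (s i) (hs1 i).symm (hs2 i)
    exact (neg_eq_of_add_eq_zero_right this).symm
  have hT := fibres f hnp
  set T := (univ.image f).filter fun q => 2 ≤ (univ.filter fun j => f j = q).card with hTdef
  -- representatives
  have hrep : ∀ q : G.ConnectedComponent, ∃ i, f i = q := fun q => q.exists_rep
  choose g hg using hrep
  obtain ⟨b, hb⟩ := exists_enum (T.image fun q => a (g q)) (Finset.card_image_le.trans hT)
  refine ⟨b, fun i => ?_⟩
  by_cases hi : 2 ≤ (univ.filter fun j => f j = f i).card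
  · right
    have hmem : f i ∈ T := by
      rw [hTdef, Finset.mem_filter]
      exact ⟨Finset.mem_image_of_mem f (Finset.mem_univ i), hi⟩
    obtain ⟨j, hj⟩ := hb _ (Finset.mem_image_of_mem (fun q => a (g q)) hmem)
    refine ⟨j, ?_⟩
    rw [hj]
    exact reach_link (le_max_left _ _) (hfr _ _ (hg (f i)).symm)
  · left
    apply hone
    have h1 : i ∈ univ.filter (fun j => f j = f i) := by simp
    have h2 : (univ.filter fun j => f j = f i).card = 1 := by
      have := Finset.card_pos.mpr ⟨i, h1⟩
      omega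
    obtain ⟨p, hp⟩ := Finset.card_eq_one.mp h2
    rw [hp, Finset.mem_singleton] at h1
    rw [hp, h1]

end Pool.Agent.Lib.MP_938ce2_ag_h85f
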