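import Mathlib
import Pool.Agent.Lib.MP_938ce2_ag_h85f.Comb

/-!
Counting: tuples covered by few linked values, and decomposable tuples.
-/

set_option autoImplicit false
set_option linter.unusedSectionVars false

namespace Pool.Agent.Lib.MP_938ce2_ag_h85f

open Finset

section

variable {m : ℕ} [NeZero m]

/-- number of solutions of a linear equation -/
lemma card_linear (u : ℤ) (hu : u ≠ 0) (w : ZMod m) :
    (univ.filter fun y : ZMod m => (u : ZMod m) * y = w).card ≤ u.natAbs := by
  classical
  by_cases h : ∃ y0 : ZMod m, (u : ZMod m) * y0 = w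
  · obtain ⟨y0, hy0⟩ := h
    have h1 := IsAddCyclic.card_nsmul_eq_zero_le (α := ZMod m) (n := u.natAbs)
      (Int.natAbs_pos.mpr hu)
    refine le_trans ?_ h1
    refine Finset.card_le_card_of_injOn (fun y => y - y0) ?_ ?_
    · intro y hy
      rw [Finset.mem_coe, Finset.mem_filter] at hy ⊢
      refine ⟨Finset.mem_univ _, ?_⟩
      have h2 : (u : ZMod m) * (y - y0) = 0 := by rw [mul_sub, hy.2, hy0, sub_self]
      rw [nsmul_eq_mul]
      rcases Int.natAbs_eq u with h3 | h3
      · rw [h3, Int.cast_natCast] at h2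
        exact h2
      · rw [h3, Int.cast_neg, Int.cast_natCast, neg_mul, neg_eq_zero] at h2
        exact h2
    · intro a _ b _ hab
      exact sub_left_injective hab
  · push Not at h
    rw [Finset.filter_false_of_mem fun y _ => h y, Finset.card_empty]
    exact Nat.zero_le _

open Classical in
/-- number of elements linked to a given one -/
lemma card_linked (B : ℕ) (z : ZMod m) :
    (univ.filter fun y : ZMod m => link B y z).card ≤ (2 * B + 1) ^ 2 * B := by
  have hsub : (univ.filter fun y : ZMod m => link B y z) ⊆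
      ((Finset.Icc (-(B : ℤ)) B) ×ˢ (Finset.Icc (-(B : ℤ)) B)).biUnion fun p =>
        if p.1 = 0 then ∅ else univ.filter fun y : ZMod m => (p.1 : ZMod m) * y = (p.2 : ZMod m) * z := by
    intro y hy
    rw [Finset.mem_filter] at hy
    obtain ⟨u, v, hu, hv, hu1, hv1, e⟩ := hy.2
    rw [Finset.mem_biUnion]
    refine ⟨(u, v), ?_, ?_⟩
    · rw [Finset.mem_product, Finset.mem_Icc, Finset.mem_Icc]
      dsimp only
      omega
    · dsimp only
      rw [if_neg hu, Finset.mem_filter]
      exact ⟨Finset.mem_univ _, e⟩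
  refine (Finset.card_le_card hsub).trans ?_
  refine Finset.card_biUnion_le.trans ?_
  have hb : ∀ p ∈ (Finset.Icc (-(B : ℤ)) B) ×ˢ (Finset.Icc (-(B : ℤ)) B),
      (if p.1 = 0 then (∅ : Finset (ZMod m)) else
        univ.filter fun y : ZMod m => (p.1 : ZMod m) * y = (p.2 : ZMod m) * z).card ≤ B := by
    intro p hp
    rw [Finset.mem_product, Finset.mem_Icc, Finset.mem_Icc] at hp
    split_ifs with h
    · simp
    · refine (card_linear p.1 h _).trans ?_
      omega
  refine (Finset.sum_le_card_nsmul _ _ B hb).trans ?_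
  rw [Finset.card_product, Int.card_Icc, smul_eq_mul]
  have : ((B : ℤ) + 1 - -(B : ℤ)).toNat = 2 * B + 1 := by omega
  rw [this, sq]

open Classical in
/-- tuples covered by few values -/
lemma card_cover (k n B : ℕ) (P : (Fin k → ZMod m) → Prop)
    (hP : ∀ a, P a → ∃ b : Fin n → ZMod m, ∀ i, a i + a i = 0 ∨ ∃ j, link B (a i) (b j)) :
    (univ.filter P).card ≤ (2 + n * ((2 * B + 1) ^ 2 * B)) ^ k * m ^ n := by
  set opt : (Fin n → ZMod m) → Finset (ZMod m) := fun b =>
    (univ.filter fun y : ZMod m => y + y = 0) ∪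
      (univ : Finset (Fin n)).biUnion fun j => univ.filter fun y : ZMod m => link B y (b j) with hopt
  have hcard : ∀ b, (opt b).card ≤ 2 + n * ((2 * B + 1) ^ 2 * B) := by
    intro b
    refine (Finset.card_union_le _ _).trans (Nat.add_le_add ?_ ?_)
    · have h1 := card_linear (m := m) 2 (by norm_num) 0
      refine le_trans (Finset.card_le_card fun y hy => ?_) h1
      rw [Finset.mem_filter] at hy ⊢
      refine ⟨Finset.mem_univ _, ?_⟩
      push_cast
      rw [two_mul]; exact hy.2
    · refine Finset.card_biUnion_le.trans ?_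
      refine (Finset.sum_le_card_nsmul _ _ _ fun j _ => card_linked B (b j)).trans ?_
      rw [Finset.card_univ, Fintype.card_fin, smul_eq_mul]
  have hsub : univ.filter P ⊆
      (univ : Finset (Fin n → ZMod m)).biUnion fun b => Fintype.piFinset fun _ : Fin k => opt b := by
    intro a ha
    obtain ⟨b, hb⟩ := hP a (Finset.mem_filter.mp ha).2
    rw [Finset.mem_biUnion]
    refine ⟨b, Finset.mem_univ _, ?_⟩
    rw [Fintype.mem_piFinset]
    intro i
    rw [hopt, Finset.mem_union]
    rcases hb i with h | ⟨j, h⟩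
    · left; simpa using h
    · right
      rw [Finset.mem_biUnion]
      exact ⟨j, Finset.mem_univ _, by simpa using h⟩
  refine (Finset.card_le_card hsub).trans ?_
  refine Finset.card_biUnion_le.trans ?_
  refine (Finset.sum_le_card_nsmul _ _ ((2 + n * ((2 * B + 1) ^ 2 * B)) ^ k) fun b _ => ?_).trans ?_
  · rw [Fintype.card_piFinset, Finset.prod_const, Finset.card_univ, Fintype.card_fin]
    exact Nat.pow_le_pow_left (hcard b) k
  · rw [Finset.card_univ, Fintype.card_fun, Fintype.card_fin, ZMod.card, smul_eq_mul, mul_comm]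

/-- decomposable tuples of nonzero elements are Tate characters -/
lemma isTate_of_decomposable {l : ℕ} {a : Fin (2 * l) → ZMod m} (h0 : ∀ i, a i ≠ 0)
    (hd : Decomposable m l a) : IsTate m l a := by
  refine ⟨h0, fun t => ?_⟩
  obtain ⟨σ, hσ⟩ := hd
  have h1 : ∀ i, ((t : ZMod m) * a (σ i)).val = m - ((t : ZMod m) * a i).val := by
    intro i
    rw [(hσ i).2.2, mul_neg, ZMod.neg_val, if_neg (unit_mul_ne_zero t (h0 i))]
  have h2 : ∑ i, ((t : ZMod m) * a i).val = ∑ i, (m - ((t : ZMod m) * a i).val) := by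
    rw [← Equiv.sum_comp σ]
    exact Finset.sum_congr rfl fun i _ => h1 i
  have h3 : ∑ i, ((t : ZMod m) * a i).val + ∑ i, (m - ((t : ZMod m) * a i).val) = 2 * l * m := by
    rw [← Finset.sum_add_distrib]
    have h4 : ∀ i : Fin (2 * l), ((t : ZMod m) * a i).val + (m - ((t : ZMod m) * a i).val) = m := by
      intro i
      have := (ZMod.val_lt ((t : ZMod m) * a i)).le
      omega
    rw [Finset.sum_congr rfl fun i _ => h4 i, Finset.sum_const, Finset.card_univ, Fintype.card_fin,
      smul_eq_mul]
  rw [← h2] at h3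
  have h5 : 2 * l * m = 2 * (l * m) := by ring
  omega

end

open Classical in
/-- the set of pairings -/
noncomputable def pairings (l : ℕ) : Finset (Equiv.Perm (Fin (2 * l))) :=
  univ.filter fun σ => ∀ i, σ i ≠ i ∧ σ (σ i) = i

lemma mem_pairings {l : ℕ} {σ : Equiv.Perm (Fin (2 * l))} :
    σ ∈ pairings l ↔ ∀ i, σ i ≠ i ∧ σ (σ i) = i := by
  classical
  simp [pairings]

lemma pairings_cycleType {l : ℕ} (σ : Equiv.Perm (Fin (2 * l))) :
    σ ∈ pairings l ↔ σ.cycleType = Multiset.replicate l 2 := by
  classical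
  rw [mem_pairings]
  constructor
  · intro h
    have hsq : σ ^ 2 = 1 := by
      ext i
      rw [sq, Equiv.Perm.mul_apply, (h i).2, Equiv.Perm.one_apply]
    have h1 : ∀ n ∈ σ.cycleType, n = 2 := by
      intro n hn
      have h2 := Equiv.Perm.two_le_of_mem_cycleType hn
      have h3 := Equiv.Perm.dvd_of_mem_cycleType hn
      have h4 : orderOf σ ∣ 2 := orderOf_dvd_of_pow_eq_one hsq
      have h5 := Nat.le_of_dvd (by norm_num) (h3.trans h4)
      omega
    have h2 : σ.cycleType = Multiset.replicate σ.cycleType.card 2 :=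
      Multiset.eq_replicate.mpr ⟨rfl, h1⟩
    have h3 : σ.support = univ := by
      ext i
      simp [(h i).1]
    have h4 := Equiv.Perm.sum_cycleType σ
    rw [h3, Finset.card_univ, Fintype.card_fin, h2, Multiset.sum_replicate, smul_eq_mul] at h4
    rw [h2]
    congr 1
    omega
  · intro h
    have hsq : σ ^ 2 = 1 := by
      rw [← orderOf_dvd_iff_pow_eq_one, ← Equiv.Perm.lcm_cycleType, h, Multiset.lcm_dvd]
      intro b hb
      rw [Multiset.eq_of_mem_replicate hb]
    have h4 := Equiv.Perm.sum_cycleType σ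
    rw [h, Multiset.sum_replicate, smul_eq_mul] at h4
    have h5 : σ.support = univ := by
      rw [← Finset.card_eq_iff_eq_univ, ← h4, Fintype.card_fin, mul_comm]
    intro i
    constructor
    · have : i ∈ σ.support := by rw [h5]; exact Finset.mem_univ i
      exact Equiv.Perm.mem_support.mp this
    · rw [← Equiv.Perm.mul_apply, ← sq, hsq, Equiv.Perm.one_apply]

open Nat in
lemma card_pairings {l : ℕ} (hl : 1 ≤ l) : (pairings l).card = (2 * l - 1)‼ := by
  classical
  have h1 : pairings l = univ.filter fun σ : Equiv.Perm (Fin (2 * l)) =>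
      σ.cycleType = Multiset.replicate l 2 := by
    ext σ
    rw [pairings_cycleType, Finset.mem_filter]
    simp
  have h2 := Equiv.Perm.card_of_cycleType_mul_eq (Fin (2 * l)) (Multiset.replicate l 2)
  rw [← h1] at h2
  have h3 : (Multiset.replicate l 2).sum = 2 * l := by
    rw [Multiset.sum_replicate, smul_eq_mul, mul_comm]
  have h4 : (Multiset.replicate l 2).prod = 2 ^ l := Multiset.prod_replicate _ _
  have h5 : ∏ n ∈ (Multiset.replicate l 2).toFinset, ((Multiset.replicate l 2).count n)! = l ! := by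
    rw [Multiset.toFinset_replicate, if_neg (by omega), Finset.prod_singleton,
      Multiset.count_replicate_self]
  rw [h3, h4, h5, Fintype.card_fin, Nat.sub_self, Nat.factorial_zero, one_mul, if_pos] at h2
  · obtain ⟨n, rfl⟩ : ∃ n, l = n + 1 := ⟨l - 1, by omega⟩
    have h7 : (2 * (n + 1))! = (2 * (n + 1))‼ * (2 * n + 1)‼ :=
      Nat.factorial_eq_mul_doubleFactorial (2 * n + 1)
    have h8 := Nat.doubleFactorial_two_mul (n + 1)
    rw [h7, h8, mul_comm] at h2
    have h9 : 2 * (n + 1) - 1 = 2 * n + 1 := by omega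
    rw [h9]
    exact Nat.eq_of_mul_eq_mul_left (by positivity) h2
  · refine ⟨le_rfl, fun a ha => ?_⟩
    rw [Multiset.eq_of_mem_replicate ha]

end Pool.Agent.Lib.MP_938ce2_ag_h85f
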