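import Mathlib
import Pool.Agent.Lib.MP_938ce2_ag_h85f.Count

/-!
The asymptotic count of the Tate characters.
-/

set_option autoImplicit false
set_option linter.unusedSectionVars false

namespace Pool.Agent.Lib.MP_938ce2_ag_h85f

open Finset

section

variable {m : ℕ} [NeZero m]

open Classical in
/-- tuples compatible with a pairing -/
noncomputable def compat (m l : ℕ) [NeZero m] (σ : Equiv.Perm (Fin (2 * l))) :
    Finset (Fin (2 * l) → ZMod m) :=
  univ.filter fun a => (∀ i, a i ≠ 0) ∧ ∀ i, a (σ i) = - a i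

lemma mem_compat {l : ℕ} {σ : Equiv.Perm (Fin (2 * l))} {a : Fin (2 * l) → ZMod m} :
    a ∈ compat m l σ ↔ (∀ i, a i ≠ 0) ∧ ∀ i, a (σ i) = - a i := by
  classical
  simp [compat]

lemma card_half {l : ℕ} {σ : Equiv.Perm (Fin (2 * l))} (hσ : σ ∈ pairings l) :
    Fintype.card {i // i < σ i} = l := by
  classical
  rw [mem_pairings] at hσ
  have h1 : (univ.filter fun i : Fin (2 * l) => i < σ i).card
      = (univ.filter fun i : Fin (2 * l) => ¬ i < σ i).card := by
    refine Finset.card_nbij' (fun i => σ i) (fun i => σ i) ?_ ?_ ?_ ?_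
    · intro i hi
      simp only [Finset.mem_coe, Finset.mem_filter, Finset.mem_univ, true_and] at hi ⊢
      rw [(hσ i).2, not_lt]
      exact hi.le
    · intro i hi
      simp only [Finset.mem_coe, Finset.mem_filter, Finset.mem_univ, true_and, not_lt] at hi ⊢
      rw [(hσ i).2]
      exact lt_of_le_of_ne hi (hσ i).1
    · intro i _
      exact (hσ i).2
    · intro i _
      exact (hσ i).2
  have h2 := Finset.card_filter_add_card_filter_not (s := (univ : Finset (Fin (2 * l))))
    (fun i => i < σ i)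
  rw [Finset.card_univ, Fintype.card_fin] at h2
  rw [Fintype.card_subtype]
  omega

lemma card_compat {l : ℕ} {σ : Equiv.Perm (Fin (2 * l))} (hσ : σ ∈ pairings l) :
    (compat m l σ).card = (m - 1) ^ l := by
  classical
  have hσ' := mem_pairings.mp hσ
  have h1 : (compat m l σ).card
      = (Fintype.piFinset fun _ : {i // i < σ i} => (univ.erase (0 : ZMod m))).card := by
    refine Finset.card_nbij' (fun a i => a i)
      (fun b i => if h : i < σ i then b ⟨i, h⟩ else
        if h' : σ i < σ (σ i) then - b ⟨σ i, h'⟩ else 0) ?_ ?_ ?_ ?_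
    · intro a ha
      rw [Finset.mem_coe, mem_compat] at ha
      rw [Finset.mem_coe, Fintype.mem_piFinset]
      intro i
      rw [Finset.mem_erase]
      exact ⟨ha.1 i, Finset.mem_univ _⟩
    · intro b hb
      rw [Finset.mem_coe, Fintype.mem_piFinset] at hb
      have hb' : ∀ i, b i ≠ 0 := fun i => (Finset.mem_erase.mp (hb i)).1
      rw [Finset.mem_coe, mem_compat]
      constructor
      · intro i
        by_cases h : i < σ i
        · simp only [h, dif_pos]; exact hb' _
        · have h' : σ i < σ (σ i) := by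
            rw [(hσ' i).2]
            exact lt_of_le_of_ne (not_lt.mp h) (hσ' i).1
          simp only [h, h', dif_pos, dif_neg, not_false_iff]
          exact neg_ne_zero.mpr (hb' _)
      · intro i
        have e := (hσ' i).2
        by_cases h : i < σ i
        · have h' : ¬ σ i < σ (σ i) := by rw [e]; exact not_lt.mpr h.le
          have h'' : σ (σ i) < σ (σ (σ i)) := by rw [e]; exact h
          have e2 : b ⟨σ (σ i), h''⟩ = b ⟨i, h⟩ := congrArg b (Subtype.ext e)
          simp only [h, h', h'', dif_pos, dif_neg, not_false_iff, e2]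
        · have h' : σ i < σ (σ i) := by
            rw [e]
            exact lt_of_le_of_ne (not_lt.mp h) (hσ' i).1
          simp only [h, h', dif_pos, dif_neg, not_false_iff, neg_neg]
    · intro a ha
      rw [Finset.mem_coe, mem_compat] at ha
      funext i
      by_cases h : i < σ i
      · simp only [h, dif_pos]
      · have h' : σ i < σ (σ i) := by
          rw [(hσ' i).2]
          exact lt_of_le_of_ne (not_lt.mp h) (hσ' i).1
        simp only [h, h', dif_pos, dif_neg, not_false_iff]
        rw [ha.2 i, neg_neg]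
    · intro b _
      funext i
      simp only [i.2, dif_pos]
  rw [h1, Fintype.card_piFinset, Finset.prod_const, Finset.card_univ, card_half hσ,
    Finset.card_erase_of_mem (Finset.mem_univ _), Finset.card_univ, ZMod.card]

/-- tuples compatible with two different pairings are covered by few values -/
lemma cover_two {l : ℕ} {σ τ : Equiv.Perm (Fin (2 * l))} (hσ : σ ∈ pairings l) (hτ : τ ∈ pairings l)
    (hne : σ ≠ τ) {a : Fin (2 * l) → ZMod m} (h1 : ∀ i, a (σ i) = - a i) (h2 : ∀ i, a (τ i) = - a i) :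
    ∃ b : Fin (l - 1) → ZMod m, ∀ i, a i + a i = 0 ∨ ∃ j, link 1 (a i) (b j) := by
  classical
  rw [mem_pairings] at hσ hτ
  let f : Fin (2 * l) → Finset (ZMod m) := fun i => {a i, - a i}
  have hf : ∀ i, f i = {a i, - a i} := fun _ => rfl
  have hfσ : ∀ i, f (σ i) = f i := by
    intro i
    rw [hf, hf, h1 i, neg_neg, Finset.pair_comm]
  have hfτ : ∀ i, f (τ i) = f i := by
    intro i
    rw [hf, hf, h2 i, neg_neg, Finset.pair_comm]
  have hsub : ∀ i, {i, σ i} ⊆ univ.filter fun j => f j = f i := by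
    intro i j hj
    rw [Finset.mem_insert, Finset.mem_singleton] at hj
    rw [Finset.mem_filter]
    rcases hj with rfl | rfl
    · exact ⟨Finset.mem_univ _, rfl⟩
    · exact ⟨Finset.mem_univ _, hfσ i⟩
  have hge : ∀ i, 2 ≤ (univ.filter fun j => f j = f i).card := by
    intro i
    have := Finset.card_le_card (hsub i)
    rwa [Finset.card_pair (hσ i).1.symm] at this
  have hnp : ¬ ∀ i, (univ.filter fun j => f j = f i).card = 2 := by
    intro hall
    apply hne
    ext i
    congr 1
    have h3 : ({i, σ i} : Finset (Fin (2 * l))) = univ.filter fun j => f j = f i :=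
      Finset.eq_of_subset_of_card_le (hsub i) (by rw [hall i, Finset.card_pair (hσ i).1.symm])
    have h4 : τ i ∈ univ.filter fun j => f j = f i := by simp [hfτ]
    rw [← h3, Finset.mem_insert, Finset.mem_singleton] at h4
    rcases h4 with h4 | h4
    · exact absurd h4 (hτ i).1
    · exact h4.symm
  have hT := fibres f hnp
  set T := (univ.image f).filter fun q => 2 ≤ (univ.filter fun j => f j = q).card with hTdef
  have hrep : ∀ q : Finset (ZMod m), ∃ y : ZMod m, ∀ i, f i = q → (y = a i ∨ y = - a i) := by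
    intro q
    by_cases h : ∃ i0, f i0 = q
    · obtain ⟨i0, hi0⟩ := h
      refine ⟨a i0, fun i hi => ?_⟩
      have h3 : a i0 ∈ f i := by
        rw [hi, ← hi0, hf]; simp
      rw [hf, Finset.mem_insert, Finset.mem_singleton] at h3
      exact h3
    · push Not at h
      exact ⟨0, fun i hi => absurd hi (h i)⟩
  choose y hy using hrep
  obtain ⟨b, hb⟩ := exists_enum (T.image y) (Finset.card_image_le.trans hT)
  refine ⟨b, fun i => Or.inr ?_⟩
  have hmem : f i ∈ T := by
    rw [hTdef, Finset.mem_filter]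
    exact ⟨Finset.mem_image_of_mem f (Finset.mem_univ i), hge i⟩
  obtain ⟨j, hj⟩ := hb _ (Finset.mem_image_of_mem y hmem)
  refine ⟨j, ?_⟩
  rw [hj]
  rcases hy (f i) i rfl with h | h
  · rw [h]; exact link_refl le_rfl _
  · rw [h]
    refine ⟨1, -1, one_ne_zero, by norm_num, by norm_num, by norm_num, ?_⟩
    push_cast
    ring

lemma card_compat_inter (l : ℕ) {σ τ : Equiv.Perm (Fin (2 * l))} (hσ : σ ∈ pairings l)
    (hτ : τ ∈ pairings l) (hne : σ ≠ τ) :
    (compat m l σ ∩ compat m l τ).card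
      ≤ (2 + (l - 1) * ((2 * 1 + 1) ^ 2 * 1)) ^ (2 * l) * m ^ (l - 1) := by
  classical
  refine le_trans (Finset.card_le_card ?_) (card_cover (2 * l) (l - 1) 1
    (fun a => a ∈ compat m l σ ∩ compat m l τ) ?_)
  · intro a ha
    simpa using ha
  · intro a ha
    rw [Finset.mem_inter, mem_compat, mem_compat] at ha
    exact cover_two hσ hτ hne ha.1.2 ha.2.2

end

/-- Bonferroni lower bound for a union -/
lemma bonferroni {ι α : Type} [DecidableEq ι] [DecidableEq α] (P : Finset ι) (A : ι → Finset α)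
    {N K : ℕ} (hA : ∀ i ∈ P, N ≤ (A i).card) (hK : ∀ i ∈ P, ∀ j ∈ P, i ≠ j → (A i ∩ A j).card ≤ K) :
    P.card * N ≤ (P.biUnion A).card + P.card * (P.card * K) := by
  classical
  set A' : ι → Finset α := fun i => A i \ (P.erase i).biUnion fun j => A i ∩ A j with hA'
  have hsub : ∀ i, A' i ⊆ A i := fun i => Finset.sdiff_subset
  have hdis : ((P : Finset ι) : Set ι).PairwiseDisjoint A' := by
    intro i hi j hj hij
    rw [Function.onFun, Finset.disjoint_left]
    intro x hx hx'
    have h1 : x ∈ A i := hsub i hx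
    have h2 : x ∈ A j := hsub j hx'
    rw [hA', Finset.mem_sdiff] at hx
    apply hx.2
    rw [Finset.mem_biUnion]
    exact ⟨j, Finset.mem_erase.mpr ⟨hij.symm, hj⟩, Finset.mem_inter.mpr ⟨h1, h2⟩⟩
  have hcard : ∀ i ∈ P, N ≤ (A' i).card + P.card * K := by
    intro i hi
    have h1 := Finset.card_le_card_sdiff_add_card (s := A i) (t := (P.erase i).biUnion fun j => A i ∩ A j)
    have h2 : ((P.erase i).biUnion fun j => A i ∩ A j).card ≤ P.card * K := by
      refine Finset.card_biUnion_le.trans ?_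
      refine (Finset.sum_le_card_nsmul _ _ K fun j hj => ?_).trans ?_
      · rw [Finset.mem_erase] at hj
        exact hK i hi j hj.2 hj.1.symm
      · rw [smul_eq_mul]
        exact Nat.mul_le_mul_right _ (Finset.card_le_card (Finset.erase_subset _ _))
    have h3 := hA i hi
    have h4 : (A' i).card = (A i \ (P.erase i).biUnion fun j => A i ∩ A j).card := rfl
    omega
  have h1 : ∑ i ∈ P, (A' i).card ≤ (P.biUnion A).card := by
    rw [← Finset.card_biUnion fun i hi j hj hij => hdis hi hj hij]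
    refine Finset.card_le_card ?_
    intro x hx
    rw [Finset.mem_biUnion] at hx ⊢
    obtain ⟨i, hi, hx⟩ := hx
    exact ⟨i, hi, hsub i hx⟩
  have h2 : ∑ i ∈ P, N ≤ ∑ i ∈ P, ((A' i).card + P.card * K) := Finset.sum_le_sum hcard
  rw [Finset.sum_add_distrib, Finset.sum_const, Finset.sum_const, smul_eq_mul, smul_eq_mul] at h2
  omega

lemma pow_sub_one_ge (n : ℕ) {x : ℝ} (hx : 1 ≤ x) : x ^ (n + 1) - (n + 1) * x ^ n ≤ (x - 1) ^ (n + 1) := by
  induction n with
  | zero => simp
  | succ n ih =>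
    have h1 : (x - 1) ^ (n + 1 + 1) = (x - 1) * (x - 1) ^ (n + 1) := by ring
    rw [h1]
    have h2 := mul_le_mul_of_nonneg_left ih (by linarith : (0 : ℝ) ≤ x - 1)
    have h3 : (0 : ℝ) ≤ (n + 1) * x ^ n := by positivity
    refine le_trans ?_ h2
    push_cast
    have h4 : x ^ (n + 1 + 1) = x ^ n * x ^ 2 := by ring
    have h5 : x ^ (n + 1) = x ^ n * x := by ring
    rw [h4, h5]
    nlinarith

open Nat in
open Classical in
/-- the main theorem, with finsets -/
theorem main_fin (l : ℕ) (hl : 1 ≤ l) : ∃ C : ℝ, ∀ (m : ℕ) [NeZero m],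
    |((univ.filter fun a : Fin (2 * l) → ZMod m => IsTate m l a).card : ℝ) - ((2 * l - 1)‼ : ℝ) * m ^ l|
        ≤ C * m ^ (l - 1) ∧
    ((univ.filter fun a : Fin (2 * l) → ZMod m => IsTate m l a ∧ ¬ Decomposable m l a).card : ℝ)
        ≤ C * m ^ (l - 1) := by
  obtain ⟨B, hB⟩ := cover l
  set P := pairings l with hP
  have hPc : P.card = (2 * l - 1)‼ := card_pairings hl
  set K1 : ℕ := (2 + (l - 1) * ((2 * B + 1) ^ 2 * B)) ^ (2 * l) with hK1
  set K2 : ℕ := (2 + (l - 1) * ((2 * 1 + 1) ^ 2 * 1)) ^ (2 * l) with hK2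
  refine ⟨K1 + P.card * (P.card * K2) + P.card * l, fun m _ => ?_⟩
  have hm1 : (1 : ℝ) ≤ m := by
    exact_mod_cast Nat.pos_of_ne_zero (NeZero.ne m)
  have hm1' : 1 ≤ m := Nat.pos_of_ne_zero (NeZero.ne m)
  set I := univ.filter fun a : Fin (2 * l) → ZMod m => IsTate m l a ∧ ¬ Decomposable m l a with hI
  have hIc : I.card ≤ K1 * m ^ (l - 1) := by
    have h := card_cover (m := m) (2 * l) (l - 1) B
      (fun a => IsTate m l a ∧ ¬ Decomposable m l a) fun a ha => hB m a ha.1 ha.2
    convert h
  have hIc' : (I.card : ℝ) ≤ K1 * m ^ (l - 1) := by exact_mod_cast hIc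
  -- the decomposable tuples
  set D := P.biUnion (compat m l) with hD
  have hsplit : (univ.filter fun a : Fin (2 * l) → ZMod m => IsTate m l a) = D ∪ I := by
    ext a
    rw [Finset.mem_filter, Finset.mem_union, hI, Finset.mem_filter, hD, Finset.mem_biUnion]
    constructor
    · rintro ⟨_, h⟩
      by_cases hd : Decomposable m l a
      · left
        obtain ⟨σ, hσ⟩ := hd
        refine ⟨σ, mem_pairings.mpr fun i => ⟨(hσ i).1, (hσ i).2.1⟩, mem_compat.mpr ⟨h.1, fun i => (hσ i).2.2⟩⟩
      · right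
        exact ⟨Finset.mem_univ _, h, hd⟩
    · rintro (⟨σ, hσ, h⟩ | h)
      · rw [mem_compat] at h
        rw [hP, mem_pairings] at hσ
        exact ⟨Finset.mem_univ _, isTate_of_decomposable h.1
          ⟨σ, fun i => ⟨(hσ i).1, (hσ i).2, h.2 i⟩⟩⟩
      · exact ⟨Finset.mem_univ _, h.2.1⟩
  have hdisj : Disjoint D I := by
    rw [Finset.disjoint_left]
    intro a ha ha'
    rw [hI, Finset.mem_filter] at ha'
    rw [hD, Finset.mem_biUnion] at ha
    obtain ⟨σ, hσ, h⟩ := ha
    rw [mem_compat] at h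
    rw [hP, mem_pairings] at hσ
    exact ha'.2.2 ⟨σ, fun i => ⟨(hσ i).1, (hσ i).2, h.2 i⟩⟩
  have hcard : (univ.filter fun a : Fin (2 * l) → ZMod m => IsTate m l a).card = D.card + I.card := by
    rw [hsplit, Finset.card_union_of_disjoint hdisj]
  have hup : D.card ≤ P.card * (m - 1) ^ l := by
    refine Finset.card_biUnion_le.trans ?_
    refine (Finset.sum_le_card_nsmul _ _ _ fun σ hσ => (card_compat hσ).le).trans ?_
    rw [smul_eq_mul]
  have hlow : P.card * (m - 1) ^ l ≤ D.card + P.card * (P.card * (K2 * m ^ (l - 1))) :=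
    bonferroni P (compat m l) (fun σ hσ => (card_compat hσ).ge)
      fun σ hσ τ hτ hne => card_compat_inter l hσ hτ hne
  have hup' : (D.card : ℝ) ≤ P.card * ((m : ℝ) - 1) ^ l := by
    have : ((P.card * (m - 1) ^ l : ℕ) : ℝ) = P.card * ((m : ℝ) - 1) ^ l := by
      rw [Nat.cast_mul, Nat.cast_pow, Nat.cast_sub hm1', Nat.cast_one]
    rw [← this]
    exact_mod_cast hup
  have hlow' : P.card * ((m : ℝ) - 1) ^ l ≤ D.card + P.card * (P.card * (K2 * m ^ (l - 1))) := by
    have : ((P.card * (m - 1) ^ l : ℕ) : ℝ) = P.card * ((m : ℝ) - 1) ^ l := by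
      rw [Nat.cast_mul, Nat.cast_pow, Nat.cast_sub hm1', Nat.cast_one]
    rw [← this]
    exact_mod_cast hlow
  have hpow1 : ((m : ℝ) - 1) ^ l ≤ m ^ l := by
    have : (0 : ℝ) ≤ (m : ℝ) - 1 := by linarith
    exact pow_le_pow_left₀ this (by linarith) l
  have hpow2 : (m : ℝ) ^ l - l * m ^ (l - 1) ≤ ((m : ℝ) - 1) ^ l := by
    obtain ⟨n, rfl⟩ : ∃ n, l = n + 1 := ⟨l - 1, by omega⟩
    have := pow_sub_one_ge n hm1
    push_cast
    exact this
  have hPpos : (0 : ℝ) ≤ P.card := Nat.cast_nonneg _
  have hmp : (0 : ℝ) ≤ (m : ℝ) ^ (l - 1) := by positivity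
  rw [hcard, ← hPc]
  push_cast
  have hI0 : (0 : ℝ) ≤ I.card := Nat.cast_nonneg _
  have e1 := mul_le_mul_of_nonneg_left hpow1 hPpos
  have e2 := mul_le_mul_of_nonneg_left hpow2 hPpos
  have hK1m : (0 : ℝ) ≤ K1 * m ^ (l - 1) := by positivity
  have hK2m : (0 : ℝ) ≤ P.card * (P.card * (K2 * m ^ (l - 1))) := by positivity
  have hK3m : (0 : ℝ) ≤ P.card * l * (m : ℝ) ^ (l - 1) := by positivity
  refine ⟨?_, ?_⟩
  · rw [abs_le]
    constructor
    · nlinarith
    · nlinarith
  · nlinarith

end Pool.Agent.Lib.MP_938ce2_ag_h85f
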