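import Mathlib
import Pool.Agent.Lib.MP_938ce2_ag_h85f.Asym

set_option autoImplicit false

namespace Pool.Agent.Results.MP_938ce2_ag.FermatTateCount

open Pool.Agent.Lib.MP_938ce2_ag_h85f
open scoped Nat

/-- Tate characters of the Fermat hypersurfaces of fixed dimension `2 * l - 2`, for every degree:
their number is `(2 * l - 1)‼ * m ^ l` up to `O(m ^ (l - 1))`, and the main term is due to the
decomposable ones. -/
theorem result (l : ℕ) (hl : 1 ≤ l) : ∃ C : ℝ, ∀ m : ℕ, 1 ≤ m →
    ((2 * l - 1)‼ : ℝ) * (m : ℝ) ^ l - C * (m : ℝ) ^ (l - 1)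
        ≤ ({a : Fin (2 * l) → ZMod m | IsTate m l a ∧ Decomposable m l a}.ncard : ℝ) ∧
    ({a : Fin (2 * l) → ZMod m | IsTate m l a}.ncard : ℝ)
        ≤ ((2 * l - 1)‼ : ℝ) * (m : ℝ) ^ l + C * (m : ℝ) ^ (l - 1) := by
  classical
  obtain ⟨C, hC⟩ := main_fin l hl
  refine ⟨2 * C, fun m hm => ?_⟩
  have hne : NeZero m := ⟨by omega⟩
  obtain ⟨h1, h2⟩ := hC m
  have e1 : {a : Fin (2 * l) → ZMod m | IsTate m l a}.ncard
      = (Finset.univ.filter fun a : Fin (2 * l) → ZMod m => IsTate m l a).card := by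
    rw [← Set.ncard_coe_finset]
    congr 1
    ext a
    simp
  have e2 : {a : Fin (2 * l) → ZMod m | IsTate m l a ∧ Decomposable m l a}.ncard
      = (Finset.univ.filter fun a : Fin (2 * l) → ZMod m => IsTate m l a ∧ Decomposable m l a).card := by
    rw [← Set.ncard_coe_finset]
    congr 1
    ext a
    simp
  have e3 : (Finset.univ.filter fun a : Fin (2 * l) → ZMod m => IsTate m l a ∧ Decomposable m l a).card
      + (Finset.univ.filter fun a : Fin (2 * l) → ZMod m => IsTate m l a ∧ ¬ Decomposable m l a).card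
      = (Finset.univ.filter fun a : Fin (2 * l) → ZMod m => IsTate m l a).card := by
    rw [← Finset.filter_filter, ← Finset.filter_filter]
    exact Finset.card_filter_add_card_filter_not _
  have hC0 : 0 ≤ C * (m : ℝ) ^ (l - 1) := le_trans (Nat.cast_nonneg _) h2
  have e3' : ((Finset.univ.filter fun a : Fin (2 * l) → ZMod m =>
        IsTate m l a ∧ Decomposable m l a).card : ℝ)
      + ((Finset.univ.filter fun a : Fin (2 * l) → ZMod m => IsTate m l a ∧ ¬ Decomposable m l a).card : ℝ)
      = ((Finset.univ.filter fun a : Fin (2 * l) → ZMod m => IsTate m l a).card : ℝ) := by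
    exact_mod_cast e3
  rw [abs_le] at h1
  rw [e1, e2]
  constructor
  · linarith [h1.1]
  · linarith [h1.2]

end Pool.Agent.Results.MP_938ce2_ag.FermatTateCount
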